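import Mathlib
import Pool.Agent.Helper647.GR.ForceCH

set_option autoImplicit false

open Set Topology Filter

namespace Pool.Agent.Helper647.MM

open Pool.Agent.Helper647.GR.ForceCH (Om)

/-- `C` is a closed unbounded subset of `ω₁` (the sentence named by `IsClubName`) -/
def IsClub (C : Om → Prop) : Prop :=
  (∀ a : Om, ∃ b : Om, a < b ∧ C b) ∧
    ∀ a : Om, (∃ b, b < a) → (∀ b : Om, b < a → ∃ c : Om, (b < c ∧ c < a) ∧ C c) → C a

/-- Jensen's diamond: the sentence which `DiamondHolds P` says is forced, evaluated in the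
universe -/
def Diamond : Prop :=
  ∃ A : Om → Om → Prop, ∀ S : Om → Prop, ∀ C : Om → Prop,
    IsClub C → ∃ a : Om, C a ∧ ∀ b : Om, b < a → (S b ↔ A a b)

/-- `X` is monolithic: the closure of each set `A` has a base of cardinality at most
`max (|A|, ℵ₀)` (for compact `X` this is the same as the definition with the network weight). -/
def Monolithic (X : Type) [TopologicalSpace X] : Prop :=
  ∀ A : Set X, ∃ B : Set (Set (closure A)), TopologicalSpace.IsTopologicalBasis B ∧
    Cardinal.mk ↥B ≤ max (Cardinal.mk ↥A) Cardinal.aleph0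

/-- `p (C_p (X)) = ω`: every point-finite family of nonempty sets of continuous real functions
which are open in the topology of pointwise convergence is countable. -/
def CountablePointFiniteCellularity (X : Type) [TopologicalSpace X] : Prop :=
  ∀ 𝒰 : Set (Set C(X, ℝ)),
    (∀ U ∈ 𝒰, IsOpen[TopologicalSpace.induced (fun f : C(X, ℝ) => (⇑f : X → ℝ))
      (inferInstance : TopologicalSpace (X → ℝ))] U ∧ U.Nonempty) →
    (∀ f : C(X, ℝ), {U | U ∈ 𝒰 ∧ f ∈ U}.Finite) → 𝒰.Countable

end Pool.Agent.Helper647.MM
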