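import Mathlib
import Pool.Agent.Helper647.MM.Defs

set_option autoImplicit false
set_option linter.all false

open Set Topology Filter

namespace Pool.Agent.Helper647.MM

open Pool.Agent.Helper647.GR.ForceCH (Om OmegaOnePreserved DiamondHolds)

lemma mk_Om : Cardinal.mk Om = Cardinal.aleph 1 := Cardinal.mk_ord_toType _

lemma countable_Iio (a : Om) : (Iio a).Countable := by
  have h : Cardinal.mk (Iio a) < Cardinal.mk Om :=
    Cardinal.mk_Iio_lt (α := (Cardinal.aleph 1).ord.ToType) a (by simp)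
  rw [mk_Om] at h
  rwa [← Cardinal.le_aleph0_iff_set_countable, ← Order.lt_succ_iff, Cardinal.succ_aleph0]

lemma countable_Iic (a : Om) : (Iic a).Countable := by
  rw [← Iio_union_right]
  exact (countable_Iio a).union (countable_singleton a)

instance : Uncountable Om := by
  rw [← not_countable_iff, ← Cardinal.mk_le_aleph0_iff, mk_Om, not_le]
  exact Cardinal.aleph0_lt_aleph_one

/-- countable sets are bounded -/
lemma bdd_of_countable {A : Set Om} (hA : A.Countable) : ∃ b, ∀ a ∈ A, a < b := by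
  by_contra hcon
  push Not at hcon
  have : (univ : Set Om) ⊆ ⋃ a ∈ A, Iic a := by
    intro x _
    obtain ⟨a, ha, hx⟩ := hcon x
    exact mem_biUnion ha hx
  exact not_countable_univ ((hA.biUnion fun a _ => countable_Iic a).mono this)

instance : Nonempty Om := by
  by_contra h
  rw [not_nonempty_iff] at h
  exact not_countable (α := Om) inferInstance

/-- `a` is a limit: it is not the least element and not a successor -/
def Lim (a : Om) : Prop := (∃ b, b < a) ∧ ∀ b < a, ∃ c, b < c ∧ c < a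

/-- closed unbounded sets -/
def IsClubS (E : Set Om) : Prop :=
  (∀ b, ∃ a ∈ E, b < a) ∧ ∀ a, (∃ b, b < a) → (∀ b < a, ∃ c ∈ E, b < c ∧ c < a) → a ∈ E

/-- Jensen's diamond principle -/
def DiamondS : Prop :=
  ∃ A : Om → Set Om, ∀ S : Set Om, ∀ E : Set Om, IsClubS E → ∃ a ∈ E, A a = S ∩ Iio a

/-- closure points of a function form a club -/
lemma club_closure (G : Om → Om) : IsClubS {a | Lim a ∧ ∀ b < a, G b < a} := by
  constructor
  · intro b0
    have step : ∀ b : Om, ∃ c, b < c ∧ ∀ x ≤ b, G x < c := by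
      intro b
      obtain ⟨c, hc⟩ := bdd_of_countable ((countable_singleton b).union ((countable_Iic b).image G))
      exact ⟨c, hc b (Or.inl rfl), fun x hx => hc _ (Or.inr ⟨x, hx, rfl⟩)⟩
    choose nx h1 h2 using step
    let s : ℕ → Om := fun n => nx^[n] b0
    have hs : ∀ n, s (n + 1) = nx (s n) := fun n => Function.iterate_succ_apply' _ _ _
    have hmono : StrictMono s := strictMono_nat_of_lt_succ fun n => by rw [hs]; exact h1 _
    obtain ⟨c, hc⟩ := bdd_of_countable (countable_range s)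
    have hne : {x : Om | ∀ n, s n < x}.Nonempty := ⟨c, fun n => hc _ ⟨n, rfl⟩⟩
    let a := wellFounded_lt.min _ hne
    have ha : ∀ n, s n < a := wellFounded_lt.min_mem _ hne
    have hlt : ∀ x < a, ∃ n, x ≤ s n := by
      intro x hx
      by_contra hcon
      push Not at hcon
      exact wellFounded_lt.not_lt_min {x : Om | ∀ n, s n < x} hcon hx
    refine ⟨a, ⟨⟨⟨s 0, ha 0⟩, ?_⟩, ?_⟩, ha 0⟩
    · intro b hb
      obtain ⟨n, hn⟩ := hlt b hb
      exact ⟨s (n + 1), hn.trans_lt (hmono (Nat.lt_succ_self n)), ha _⟩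
    · intro b hb
      obtain ⟨n, hn⟩ := hlt b hb
      have := h2 (s n) b hn
      rw [← hs] at this
      exact this.trans (ha _)
  · intro a hne ha
    refine ⟨⟨hne, fun b hb => ?_⟩, fun b hb => ?_⟩
    · obtain ⟨c, _, h1, h2⟩ := ha b hb
      exact ⟨c, h1, h2⟩
    · obtain ⟨c, hc, h1, h2⟩ := ha b hb
      exact (hc.2 b h1).trans h2

/-- recursion along `Om` -/
lemma exists_rec {R : Type} [Inhabited R] (Q : Om → (Om → R) → R → Prop)
    (hloc : ∀ a f f' r, (∀ b < a, f b = f' b) → Q a f r → Q a f' r)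
    (hex : ∀ a f, (∀ b < a, Q b f (f b)) → ∃ r, Q a f r) : ∃ f : Om → R, ∀ a, Q a f (f a) := by
  classical
  let tr : (a : Om) → ((b : Om) → b < a → R) → Om → R :=
    fun a p b => if h : b < a then p b h else default
  let F : (a : Om) → ((b : Om) → b < a → R) → R :=
    fun a p => if h : ∃ r, Q a (tr a p) r then h.choose else default
  let f : Om → R := (wellFounded_lt (α := Om)).fix F
  have hf : ∀ a, f a = F a (fun b _ => f b) := fun a => (wellFounded_lt (α := Om)).fix_eq F a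
  refine ⟨f, ?_⟩
  intro a
  refine (wellFounded_lt (α := Om)).induction (C := fun a => Q a f (f a)) a ?_
  intro a ih
  · have htr : ∀ b < a, f b = tr a (fun b _ => f b) b := by
      intro b hb
      simp [tr, hb]
    obtain ⟨r, hr⟩ := hex a f ih
    have h1 : ∃ r, Q a (tr a (fun b _ => f b)) r := ⟨r, hloc a f _ r htr hr⟩
    have h2 : Q a (tr a (fun b _ => f b)) (f a) := by
      rw [hf a]
      show Q a (tr a (fun b _ => f b)) (dite _ _ _)
      rw [dif_pos h1]
      exact h1.choose_spec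
    exact hloc a _ f _ (fun b hb => (htr b hb).symm) h2

/-- the points of the locally compact space -/
abbrev U : Type := Om × ℕ

/-- the basic compact open neighbourhood of the point `u` -/
def Nb (c : Om → U → ℕ) (u : U) : Set U := {v | v = u ∨ (v.1 < u.1 ∧ c u.1 v = u.2)}

lemma self_mem_Nb (c : Om → U → ℕ) (u : U) : u ∈ Nb c u := Or.inl rfl

lemma Nb_le {c : Om → U → ℕ} {u v : U} (h : v ∈ Nb c u) : v.1 ≤ u.1 := by
  rcases h with h | h
  · rw [h]
  · exact h.1.le

lemma Nb_lt {c : Om → U → ℕ} {u v : U} (h : v ∈ Nb c u) (hne : v ≠ u) : v.1 < u.1 := by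
  rcases h with h | h
  · exact absurd h hne
  · exact h.1

/-- `f` is locally constant below `a` -/
def LC (c : Om → U → ℕ) (a : Om) (f : U → ℕ) : Prop :=
  ∀ u : U, u.1 < a → ∃ F : Finset U, (∀ v ∈ F, v.1 < u.1) ∧
    ∀ z ∈ Nb c u, (∀ v ∈ F, z ∉ Nb c v) → f z = f u

/-- membership in each `Nb c w` is locally decided -/
lemma decide_one (c : Om → U → ℕ) (a : Om) (h : ∀ b < a, LC c b (c b)) (u w : U) (hw : w.1 < a) :
    ∃ F : Finset U, (∀ v ∈ F, v.1 < u.1) ∧
      ∀ z ∈ Nb c u, (∀ v ∈ F, z ∉ Nb c v) → (z ∈ Nb c w ↔ u ∈ Nb c w) := by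
  classical
  by_cases hwu : w = u
  · subst hwu
    exact ⟨∅, by simp, fun z hz _ => ⟨fun _ => self_mem_Nb c w, fun _ => hz⟩⟩
  rcases lt_trichotomy w.1 u.1 with hlt | heq | hgt
  · refine ⟨{w}, by simpa using hlt, fun z hz hF => ⟨fun h => absurd h (hF w (by simp)), fun h => ?_⟩⟩
    exact absurd (Nb_le h) (not_le.2 hlt)
  · refine ⟨∅, by simp, fun z hz _ => ⟨fun h => ?_, fun h => ?_⟩⟩
    · exfalso
      rcases hz with hz | hz
      · subst hz
        have := Nb_lt h (Ne.symm hwu)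
        exact absurd heq (ne_of_gt this)
      · rcases h with h | h
        · rw [h] at hz
          exact absurd heq (ne_of_lt hz.1)
        · have h1 := hz.2
          have h2 := h.2
          rw [heq] at h2
          exact hwu (Prod.ext heq (h2.symm.trans h1))
    · exfalso
      have := Nb_lt h (Ne.symm hwu)
      exact absurd heq (ne_of_gt this)
  · obtain ⟨F, hF, hF2⟩ := h w.1 hw u hgt
    refine ⟨F, hF, fun z hz hzF => ?_⟩
    have h1 := hF2 z hz hzF
    have hz1 : z.1 < w.1 := lt_of_le_of_lt (Nb_le hz) hgt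
    constructor
    · intro h2
      rcases h2 with h2 | h2
      · rw [h2] at hz1
        exact absurd hz1 (lt_irrefl _)
      · exact Or.inr ⟨hgt, h1 ▸ h2.2⟩
    · intro h2
      rcases h2 with h2 | h2
      · exact absurd h2.symm hwu
      · exact Or.inr ⟨hz1, h1.trans h2.2⟩

/-- the same for finitely many sets -/
lemma decide_fin (c : Om → U → ℕ) (a : Om) (h : ∀ b < a, LC c b (c b)) (u : U) (G : Finset U)
    (hG : ∀ w ∈ G, w.1 < a) :
    ∃ F : Finset U, (∀ v ∈ F, v.1 < u.1) ∧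
      ∀ z ∈ Nb c u, (∀ v ∈ F, z ∉ Nb c v) → ∀ w ∈ G, (z ∈ Nb c w ↔ u ∈ Nb c w) := by
  classical
  induction G using Finset.induction_on with
  | empty => exact ⟨∅, by simp, by simp⟩
  | insert w G hw ih =>
    obtain ⟨F, hF, hF2⟩ := ih (fun v hv => hG v (Finset.mem_insert_of_mem hv))
    obtain ⟨F', hF', hF2'⟩ := decide_one c a h u w (hG w (Finset.mem_insert_self _ _))
    refine ⟨F ∪ F', fun v hv => ?_, fun z hz hzF v hv => ?_⟩
    · rcases Finset.mem_union.1 hv with hv | hv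
      · exact hF v hv
      · exact hF' v hv
    · rcases Finset.mem_insert.1 hv with rfl | hv
      · exact hF2' z hz fun v hv => hzF v (Finset.mem_union_right _ hv)
      · exact hF2 z hz (fun v hv => hzF v (Finset.mem_union_left _ hv)) v hv

/-- The family `D` of finite sets of labelled points escapes from all compact subsets of the
space below `a`. -/
def Esc (c : Om → U → ℕ) (a : Om) (D : Set (Finset (ℕ × U))) : Prop :=
  ∀ G : Finset U, (∀ v ∈ G, v.1 < a) → ∃ t ∈ D, ∀ p ∈ t, p.2.1 < a ∧ ∀ v ∈ G, p.2 ∉ Nb c v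

/-- the labels of the members of `D` are bounded and the points in each member are labelled
injectively -/
def Lab (D : Set (Finset (ℕ × U))) : Prop :=
  (∃ n, ∀ t ∈ D, ∀ p ∈ t, p.1 < n) ∧ ∀ t ∈ D, ∀ p ∈ t, ∀ q ∈ t, p.2 = q.2 → p = q

/-- the requirement on the function `f` chosen at the stage `a` -/
def Q (D : Om → Set (Finset (ℕ × U))) (a : Om) (c : Om → U → ℕ) (f : U → ℕ) : Prop :=
  LC c a f ∧ (∃ n, ∀ z, f z < n) ∧ (Lab (D a) → Esc c a (D a) →
    ∃ l : ℕ → Finset (ℕ × U), (∀ k, l k ∈ D a) ∧ (∀ k, ∀ p ∈ l k, p.2.1 < a ∧ f p.2 = p.1) ∧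
      ∀ v : U, v.1 < a → ∃ m, ∀ k ≥ m, ∀ p ∈ l k, p.2 ∉ Nb c v)

lemma exists_stage (D : Set (Finset (ℕ × U))) (a : Om) (c : Om → U → ℕ)
    (h : ∀ b < a, LC c b (c b)) : ∃ f : U → ℕ, LC c a f ∧ (∃ n, ∀ z, f z < n) ∧
    (Lab D → Esc c a D →
    ∃ l : ℕ → Finset (ℕ × U), (∀ k, l k ∈ D) ∧ (∀ k, ∀ p ∈ l k, p.2.1 < a ∧ f p.2 = p.1) ∧
      ∀ v : U, v.1 < a → ∃ m, ∀ k ≥ m, ∀ p ∈ l k, p.2 ∉ Nb c v) := by
  classical
  by_cases hD : Lab D ∧ Esc c a D
  swap
  · refine ⟨fun _ => 0, fun u _ => ⟨∅, by simp, fun _ _ _ => rfl⟩, ⟨1, fun _ => one_pos⟩, ?_⟩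
    intro h1 h2
    exact absurd ⟨h1, h2⟩ hD
  obtain ⟨⟨⟨n, hn⟩, hinj⟩, hE⟩ := hD
  by_cases hne : ∃ v : U, v.1 < a
  swap
  · push Not at hne
    obtain ⟨t, ht, ht2⟩ := hE ∅ (by simp)
    refine ⟨fun _ => 0, fun u _ => ⟨∅, by simp, fun _ _ _ => rfl⟩, ⟨1, fun _ => one_pos⟩, ?_⟩
    intro _ _
    refine ⟨fun _ => t, fun _ => ht, fun k p hp => ?_, fun v hv => ?_⟩
    · exact absurd (ht2 p hp).1 (not_lt.2 (hne p.2))
    · exact absurd hv (not_lt.2 (hne v))
  have hcount : {v : U | v.1 < a}.Countable := by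
    have : {v : U | v.1 < a} = (Iio a) ×ˢ (univ : Set ℕ) := by
      ext v; simp
    rw [this]
    exact (countable_Iio a).prod countable_univ
  obtain ⟨e, he⟩ := hcount.exists_eq_range hne
  have he1 : ∀ m, (e m).1 < a := fun m => by
    have : e m ∈ {v : U | v.1 < a} := he ▸ mem_range_self m
    exact this
  have he2 : ∀ v : U, v.1 < a → ∃ m, e m = v := fun v hv => by
    have : v ∈ {v : U | v.1 < a} := hv
    rw [he] at this
    exact this
  have hE' : ∀ G : Finset U, ∃ t, (∀ v ∈ G, v.1 < a) → t ∈ D ∧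
      ∀ p ∈ t, p.2.1 < a ∧ ∀ v ∈ G, p.2 ∉ Nb c v := by
    intro G
    by_cases hG : ∀ v ∈ G, v.1 < a
    · obtain ⟨t, ht, ht2⟩ := hE G hG
      exact ⟨t, fun _ => ⟨ht, ht2⟩⟩
    · exact ⟨∅, fun h => absurd h hG⟩
  choose T hT using hE'
  let G : ℕ → Finset U := fun k => Nat.rec ∅ (fun k Gk => Gk ∪ (T Gk).image Prod.snd ∪ {e k}) k
  have hG0 : G 0 = ∅ := rfl
  have hGs : ∀ k, G (k + 1) = G k ∪ (T (G k)).image Prod.snd ∪ {e k} := fun k => rfl
  have hGa : ∀ k, ∀ v ∈ G k, v.1 < a := by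
    intro k
    induction k with
    | zero => intro v hv; rw [hG0] at hv; simp at hv
    | succ k ih =>
      intro v hv
      rw [hGs] at hv
      simp only [Finset.mem_union, Finset.mem_image, Finset.mem_singleton] at hv
      rcases hv with (hv | ⟨p, hp, hv⟩) | hv
      · exact ih v hv
      · rw [← hv]
        exact ((hT (G k) ih).2 p hp).1
      · rw [hv]; exact he1 k
  have hmono : Monotone G := monotone_nat_of_le_succ fun k => by
    rw [hGs]
    intro v hv
    simp only [Finset.mem_union]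
    exact Or.inl (Or.inl hv)
  let l : ℕ → Finset (ℕ × U) := fun k => T (G k)
  have hl1 : ∀ k, l k ∈ D := fun k => (hT (G k) (hGa k)).1
  have hl2 : ∀ k, ∀ p ∈ l k, p.2.1 < a := fun k p hp => ((hT (G k) (hGa k)).2 p hp).1
  have hl3 : ∀ k, ∀ p ∈ l k, ∀ v ∈ G k, p.2 ∉ Nb c v := fun k p hp =>
    ((hT (G k) (hGa k)).2 p hp).2
  have hl4 : ∀ k, ∀ p ∈ l k, p.2 ∈ G (k + 1) := by
    intro k p hp
    rw [hGs]
    simp only [Finset.mem_union, Finset.mem_image]
    exact Or.inl (Or.inr ⟨p, hp, rfl⟩)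
  let In : U → ℕ → Prop := fun z k => ∃ v ∈ G k, z ∈ Nb c v
  have hInmono : ∀ z k k', k ≤ k' → In z k → In z k' := by
    rintro z k k' hk ⟨v, hv, hz⟩
    exact ⟨v, hmono hk hv, hz⟩
  have hIn0 : ∀ z, ¬ In z 0 := by
    rintro z ⟨v, hv, -⟩
    rw [hG0] at hv
    simp at hv
  let Sel : U → (ℕ × U) → ℕ → Prop := fun z p k =>
    ¬ In z k ∧ p ∈ l k ∧ z ∈ Nb c p.2 ∧ ∀ q ∈ l k, z ∈ Nb c q.2 → p.2.1 ≤ q.2.1
  let R : U → ℕ → Prop := fun z j => ∃ k p, Sel z p k ∧ p.1 = j
  let f : U → ℕ := fun z => if hz : ∃ j, R z j then hz.choose else 0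
  have hf_congr : ∀ z u, (∀ j, R z j ↔ R u j) → f z = f u := by
    intro z u hzu
    have : R z = R u := funext fun j => propext (hzu j)
    simp only [f, this]
  refine ⟨f, ?_, ⟨n + 1, ?_⟩, fun _ _ => ⟨l, hl1, fun k p hp => ⟨hl2 k p hp, ?_⟩, ?_⟩⟩
  · -- locally constant
    intro u hu
    obtain ⟨m, hm⟩ := he2 u hu
    have hex : ∃ k, In u k := by
      refine ⟨m + 1, u, ?_, self_mem_Nb c u⟩
      rw [hGs]
      simp only [Finset.mem_union, Finset.mem_singleton]
      exact Or.inr hm.symm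
    obtain ⟨k0, hk0, hk0'⟩ : ∃ k0, ¬ In u k0 ∧ In u (k0 + 1) := by
      have h1 : Nat.find hex ≠ 0 := by
        intro h0
        have := Nat.find_spec hex
        rw [h0] at this
        exact hIn0 u this
      obtain ⟨k0, hk0⟩ := Nat.exists_eq_succ_of_ne_zero h1
      refine ⟨k0, Nat.find_min hex (by omega), ?_⟩
      have := Nat.find_spec hex
      rw [hk0] at this
      exact this
    obtain ⟨F, hF, hF2⟩ := decide_fin c a h u (G (k0 + 1)) (fun w hw => hGa (k0 + 1) w hw)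
    refine ⟨F, hF, fun z hz hzF => hf_congr z u fun j => ?_⟩
    have hdec := hF2 z hz hzF
    have hk1 : ¬ In z k0 := by
      rintro ⟨v, hv, hzv⟩
      exact hk0 ⟨v, hv, (hdec v (hmono (Nat.le_succ _) hv)).1 hzv⟩
    have hk1' : In z (k0 + 1) := by
      obtain ⟨v, hv, huv⟩ := hk0'
      exact ⟨v, hv, (hdec v hv).2 huv⟩
    have key : ∀ p k, Sel z p k ↔ Sel u p k := by
      intro p k
      rcases lt_trichotomy k k0 with hk | hk | hk
      · constructor
        · rintro ⟨_, hp, hzp, _⟩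
          exact absurd (hInmono z _ _ (Nat.succ_le_of_lt hk) ⟨p.2, hl4 k p hp, hzp⟩) hk1
        · rintro ⟨_, hp, hzp, _⟩
          exact absurd (hInmono u _ _ (Nat.succ_le_of_lt hk) ⟨p.2, hl4 k p hp, hzp⟩) hk0
      · subst hk
        constructor
        · rintro ⟨_, hp, hzp, hmin⟩
          refine ⟨hk0, hp, (hdec _ (hl4 k p hp)).1 hzp, fun q hq huq => hmin q hq ?_⟩
          exact (hdec _ (hl4 k q hq)).2 huq
        · rintro ⟨_, hp, hzp, hmin⟩
          refine ⟨hk1, hp, (hdec _ (hl4 k p hp)).2 hzp, fun q hq huq => hmin q hq ?_⟩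
          exact (hdec _ (hl4 k q hq)).1 huq
      · constructor
        · rintro ⟨h1, _⟩
          exact absurd (hInmono z _ _ (Nat.succ_le_of_lt hk) hk1') h1
        · rintro ⟨h1, _⟩
          exact absurd (hInmono u _ _ (Nat.succ_le_of_lt hk) hk0') h1
    constructor
    · rintro ⟨k, p, hp, hj⟩
      exact ⟨k, p, (key p k).1 hp, hj⟩
    · rintro ⟨k, p, hp, hj⟩
      exact ⟨k, p, (key p k).2 hp, hj⟩
  · -- bounded
    intro z
    by_cases hz : ∃ j, R z j
    · have : f z = hz.choose := dif_pos hz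
      rw [this]
      obtain ⟨k, p, hp, hj⟩ := hz.choose_spec
      have := hn (l k) (hl1 k) p hp.2.1
      omega
    · have : f z = 0 := dif_neg hz
      rw [this]
      exact Nat.succ_pos n
  · -- the label
    have hsel : Sel p.2 p k := by
      refine ⟨?_, hp, self_mem_Nb c _, fun q hq hpq => Nb_le hpq⟩
      rintro ⟨v, hv, hpv⟩
      exact hl3 k p hp v hv hpv
    have hz : ∃ j, R p.2 j := ⟨p.1, k, p, hsel, rfl⟩
    have : f p.2 = hz.choose := dif_pos hz
    rw [this]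
    obtain ⟨k', p', hp', hj⟩ := hz.choose_spec
    have hkk : k' = k := by
      by_contra hne'
      rcases lt_or_gt_of_ne hne' with hlt | hlt
      · exact hsel.1 (hInmono _ _ _ (Nat.succ_le_of_lt hlt) ⟨p'.2, hl4 k' p' hp'.2.1, hp'.2.2.1⟩)
      · exact hp'.1 (hInmono _ _ _ (Nat.succ_le_of_lt hlt) ⟨p.2, hl4 k p hp, self_mem_Nb c _⟩)
    subst hkk
    have h1 : p'.2.1 ≤ p.2.1 := hp'.2.2.2 p hp (self_mem_Nb c _)
    have h2 : p.2 = p'.2 := by
      by_contra hne'
      exact absurd (Nb_lt hp'.2.2.1 hne') (not_lt.2 h1)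
    have h3 : p = p' := hinj (l k') (hl1 k') p hp p' hp'.2.1 h2
    exact hj.symm.trans (congrArg Prod.fst h3).symm
  · -- escape
    intro v hv
    obtain ⟨m, hm⟩ := he2 v hv
    refine ⟨m + 1, fun k hk p hp => hl3 k p hp v (hmono hk ?_)⟩
    rw [hGs]
    simp only [Finset.mem_union, Finset.mem_singleton]
    exact Or.inr hm.symm

lemma Nb_congr {c c' : Om → U → ℕ} {a : Om} (h : ∀ b < a, c b = c' b) {u : U} (hu : u.1 < a) :
    Nb c u = Nb c' u := by
  simp only [Nb, h u.1 hu]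

/-- the transfinite construction -/
lemma exists_space (D : Om → Set (Finset (ℕ × U))) :
    ∃ c : Om → U → ℕ, ∀ a, Q D a c (c a) := by
  refine exists_rec (Q D) ?_ ?_
  · rintro a c c' f hcc ⟨h1, h2, h3⟩
    refine ⟨?_, h2, ?_⟩
    · intro u hu
      obtain ⟨F, hF, hF2⟩ := h1 u hu
      refine ⟨F, hF, fun z hz hzF => hF2 z ?_ fun v hv => ?_⟩
      · rwa [Nb_congr hcc hu]
      · rw [Nb_congr hcc ((hF v hv).trans hu)]
        exact hzF v hv
    · intro hL hE
      obtain ⟨l, hl1, hl2, hl3⟩ := h3 hL (by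
        intro G hG
        obtain ⟨t, ht, ht2⟩ := hE G hG
        refine ⟨t, ht, fun p hp => ⟨(ht2 p hp).1, fun v hv => ?_⟩⟩
        rw [Nb_congr hcc (hG v hv)]
        exact (ht2 p hp).2 v hv)
      refine ⟨l, hl1, hl2, fun v hv => ?_⟩
      obtain ⟨m, hm⟩ := hl3 v hv
      refine ⟨m, fun k hk p hp => ?_⟩
      rw [← Nb_congr hcc hv]
      exact hm k hk p hp
  · intro a c hc
    obtain ⟨f, hf⟩ := exists_stage (D a) a c fun b hb => (hc b hb).1
    exact ⟨f, hf⟩

/-- the compact space: the points and one point at infinity -/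
def KK (c : Om → U → ℕ) : Type := Option U

/-- a point of the locally compact space as a point of the compact space -/
def pt {c : Om → U → ℕ} (u : U) : KK c := (some u : Option U)

/-- the point at infinity -/
def inf {c : Om → U → ℕ} : KK c := (none : Option U)

lemma KK_cases {c : Om → U → ℕ} (z : KK c) : z = inf ∨ ∃ u, z = pt u :=
  match z with
  | none => Or.inl rfl
  | some u => Or.inr ⟨u, rfl⟩

lemma pt_inj {c : Om → U → ℕ} {u v : U} (h : (pt u : KK c) = pt v) : u = v :=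
  Option.some_inj.1 h

lemma pt_ne {c : Om → U → ℕ} {u : U} : (pt u : KK c) ≠ inf := fun h => by
  have : (some u : Option U) = none := h
  exact absurd this (by simp)

/-- `z` is a point of the set `Nb c w` -/
def Mem {c : Om → U → ℕ} (z : KK c) (w : U) : Prop := ∃ u, z = pt u ∧ u ∈ Nb c w

open Classical in
/-- the coordinates of the point `z` -/
noncomputable def Phi (c : Om → U → ℕ) (z : KK c) : U → Bool := fun w => decide (Mem z w)

noncomputable instance (c : Om → U → ℕ) : TopologicalSpace (KK c) :=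
  TopologicalSpace.induced (Phi c) inferInstance

lemma Phi_eq {c : Om → U → ℕ} {z z' : KK c} {w : U} :
    Phi c z w = Phi c z' w ↔ (Mem z w ↔ Mem z' w) := by
  simp [Phi]

lemma mem_inf {c : Om → U → ℕ} {w : U} : ¬ Mem (inf : KK c) w := by
  rintro ⟨u, h, _⟩
  exact pt_ne h.symm

lemma mem_pt {c : Om → U → ℕ} {u w : U} : Mem (pt u : KK c) w ↔ u ∈ Nb c w := by
  constructor
  · rintro ⟨v, h, h'⟩
    rwa [pt_inj h]
  · exact fun h => ⟨u, rfl, h⟩

lemma le_nhds_iff' {c : Om → U → ℕ} (l : Filter (KK c)) (z : KK c) :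
    l ≤ 𝓝 z ↔ ∀ w, ∀ᶠ y in l, (Mem y w ↔ Mem z w) := by
  have h1 : l ≤ 𝓝 z ↔ Tendsto (Phi c) l (𝓝 (Phi c z)) := by
    rw [nhds_induced]
    exact map_le_iff_le_comap.symm
  rw [h1, tendsto_pi_nhds]
  refine forall_congr' fun w => ?_
  rw [nhds_discrete, tendsto_pure]
  exact eventually_congr (Eventually.of_forall fun y => Phi_eq)

lemma cont_Phi (c : Om → U → ℕ) : Continuous (Phi c) := continuous_induced_dom

lemma clopen_mem (c : Om → U → ℕ) (w : U) : IsClopen {y : KK c | Mem y w} := by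
  have : {y : KK c | Mem y w} = (fun y => Phi c y w) ⁻¹' {true} := by
    ext y
    simp [Phi]
  rw [this]
  exact (isClopen_discrete _).preimage ((continuous_apply w).comp (cont_Phi c))

lemma sep {c : Om → U → ℕ} {z z' : KK c} (h : z ≠ z') :
    ∃ w, (z = pt w ∨ z' = pt w) ∧ ¬ (Mem z w ↔ Mem z' w) := by
  rcases KK_cases z with rfl | ⟨u, rfl⟩ <;> rcases KK_cases z' with rfl | ⟨v, rfl⟩
  · exact absurd rfl h
  · exact ⟨v, Or.inr rfl, fun h => mem_inf (h.2 (mem_pt.2 (self_mem_Nb c v)))⟩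
  · exact ⟨u, Or.inl rfl, fun h => mem_inf (h.1 (mem_pt.2 (self_mem_Nb c u)))⟩
  · have hne : u ≠ v := fun h' => h (by rw [h'])
    rcases le_total u.1 v.1 with hle | hle
    · refine ⟨u, Or.inl rfl, fun h' => ?_⟩
      have := mem_pt.1 (h'.1 (mem_pt.2 (self_mem_Nb c u)))
      exact absurd (Nb_lt this (Ne.symm hne)) (not_lt.2 hle)
    · refine ⟨v, Or.inr rfl, fun h' => ?_⟩
      have := mem_pt.1 (h'.2 (mem_pt.2 (self_mem_Nb c v)))
      exact absurd (Nb_lt this hne) (not_lt.2 hle)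

lemma inj_Phi (c : Om → U → ℕ) : Function.Injective (Phi c) := by
  intro z z' h
  by_contra hne
  obtain ⟨w, _, hw⟩ := sep hne
  exact hw (Phi_eq.1 (congrFun h w))

instance (c : Om → U → ℕ) : T2Space (KK c) :=
  (Topology.IsEmbedding.mk ⟨rfl⟩ (inj_Phi c)).t2Space

lemma exists_gt_Om (a : Om) : ∃ b, a < b := by
  obtain ⟨b, hb⟩ := bdd_of_countable (countable_singleton a)
  exact ⟨b, hb a rfl⟩

lemma decide_all {c : Om → U → ℕ} (h : ∀ a, LC c a (c a)) (u w : U) :
    ∃ F : Finset U, (∀ v ∈ F, v.1 < u.1) ∧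
      ∀ z ∈ Nb c u, (∀ v ∈ F, z ∉ Nb c v) → (z ∈ Nb c w ↔ u ∈ Nb c w) := by
  obtain ⟨a, ha⟩ := exists_gt_Om w.1
  exact decide_one c a (fun b _ => h b) u w ha

lemma compact_KK {c : Om → U → ℕ} (h : ∀ a, LC c a (c a)) : CompactSpace (KK c) := by
  refine ⟨isCompact_iff_ultrafilter_le_nhds.2 fun l _ => ?_⟩
  by_cases hl : ∃ w : U, ∀ᶠ y in (l : Filter (KK c)), Mem y w
  · obtain ⟨a, ha, hmin⟩ := WellFounded.has_min (wellFounded_lt (α := Om))
      {a | ∃ w : U, w.1 = a ∧ ∀ᶠ y in (l : Filter (KK c)), Mem y w}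
      ⟨hl.choose.1, hl.choose, rfl, hl.choose_spec⟩
    obtain ⟨u, hu, hul⟩ := ha
    refine ⟨pt u, mem_univ _, (le_nhds_iff' _ _).2 fun w => ?_⟩
    obtain ⟨F, hF, hF2⟩ := decide_all h u w
    have hF3 : ∀ᶠ y in (l : Filter (KK c)), ∀ v ∈ F, ¬ Mem y v := by
      rw [Filter.eventually_all_finset]
      intro v hv
      rw [Ultrafilter.eventually_not]
      intro hcon
      exact hmin v.1 ⟨v, rfl, hcon⟩ (hu ▸ hF v hv)
    filter_upwards [hul, hF3] with y hy1 hy2
    obtain ⟨z, rfl, hz⟩ := hy1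
    rw [mem_pt, mem_pt]
    exact hF2 z hz fun v hv hzv => hy2 v hv (mem_pt.2 hzv)
  · push Not at hl
    refine ⟨inf, mem_univ _, (le_nhds_iff' _ _).2 fun w => ?_⟩
    have := hl w
    have h2 : ∀ᶠ y in (l : Filter (KK c)), ¬ Mem y w := this
    filter_upwards [h2] with y hy
    exact ⟨fun h => absurd h hy, fun h => absurd h mem_inf⟩

lemma countable_below (a : Om) : {u : U | u.1 ≤ a}.Countable := by
  have : {v : U | v.1 ≤ a} = (Iic a) ×ˢ (univ : Set ℕ) := by
    ext v; simp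
  rw [this]
  exact (countable_Iic a).prod countable_univ

/-- the closure of a countable set is bounded -/
lemma closure_bdd {c : Om → U → ℕ} (hb : ∀ a, ∃ n, ∀ z, c a z < n) {A : Set (KK c)}
    (hA : A.Countable) : ∃ a : Om, ∀ z ∈ closure A, ∀ u : U, z = pt u → u.1 ≤ a := by
  have h1 : {b : Om | ∃ u : U, (pt u : KK c) ∈ A ∧ b = u.1}.Countable := by
    have h2 : {u : U | (pt u : KK c) ∈ A}.Countable :=
      hA.preimage_of_injOn (f := fun u : U => (pt u : KK c)) (fun u _ v _ h => pt_inj h)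
    refine (h2.image Prod.fst).mono ?_
    rintro b ⟨u, hu, rfl⟩
    exact ⟨u, hu, rfl⟩
  obtain ⟨a, ha⟩ := bdd_of_countable h1
  obtain ⟨n, hn⟩ := hb a
  refine ⟨a, fun z hz u hu => ?_⟩
  let W : Set (KK c) := ⋃ i ∈ Finset.range n, {y : KK c | Mem y (a, i)}
  have hW : IsClosed (W ∪ {inf}) := by
    refine IsClosed.union ?_ isClosed_singleton
    exact isClosed_biUnion_finset fun i _ => (clopen_mem c (a, i)).1
  have hAW : A ⊆ W ∪ {inf} := by
    intro y hy
    rcases KK_cases y with rfl | ⟨v, rfl⟩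
    · exact Or.inr rfl
    · left
      simp only [W, mem_iUnion, Finset.mem_range]
      exact ⟨c a v, hn v, mem_pt.2 (Or.inr ⟨ha _ ⟨v, hy, rfl⟩, rfl⟩)⟩
  have hz' := closure_minimal hAW hW hz
  rcases hz' with hz' | hz'
  · simp only [W, mem_iUnion, Finset.mem_range] at hz'
    obtain ⟨i, _, hi⟩ := hz'
    rw [hu] at hi
    exact Nb_le (mem_pt.1 hi)
  · rw [hu] at hz'
    exact absurd hz' pt_ne

/-- a basis of a closed subspace -/
lemma basis_of {c : Om → U → ℕ} [CompactSpace (KK c)] (Y : Set (KK c)) (hY : IsClosed Y)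
    (V : Set U) (hsep : ∀ z ∈ Y, ∀ z' ∈ Y, z ≠ z' → ∃ w ∈ V, ¬ (Mem z w ↔ Mem z' w)) :
    ∃ B : Set (Set Y), TopologicalSpace.IsTopologicalBasis B ∧
      Cardinal.mk ↥B ≤ max (Cardinal.mk ↥V) Cardinal.aleph0 := by
  classical
  haveI : CompactSpace Y := isCompact_iff_compactSpace.1 hY.isCompact
  let φ : Y → (V → Bool) := fun y w => Phi c y.1 w.1
  have hφ : Continuous φ :=
    continuous_pi fun w => (continuous_apply w.1).comp ((cont_Phi c).comp continuous_subtype_val)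
  have hinj : Function.Injective φ := by
    intro z z' h
    by_contra hne
    obtain ⟨w, hw, hw2⟩ := hsep z.1 z.2 z'.1 z'.2 (fun h => hne (Subtype.ext h))
    exact hw2 (Phi_eq.1 (congrFun h ⟨w, hw⟩))
  have hemb := (hφ.isClosedEmbedding hinj).isInducing
  let C : Finset (V × Bool) → Set Y := fun F => {y | ∀ p ∈ F, φ y p.1 = p.2}
  refine ⟨range C, ?_, ?_⟩
  · refine TopologicalSpace.isTopologicalBasis_of_isOpen_of_nhds ?_ ?_
    · rintro _ ⟨F, rfl⟩
      have : C F = ⋂ p ∈ F, {y | φ y p.1 = p.2} := by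
        ext y; simp [C]
      rw [this]
      refine isOpen_biInter_finset fun p _ => ?_
      have h2 : {y | φ y p.1 = p.2} = (fun y => φ y p.1) ⁻¹' {p.2} := rfl
      rw [h2]
      exact (isOpen_discrete _).preimage ((continuous_apply p.1).comp hφ)
    · intro y O hy hO
      obtain ⟨O', hO', rfl⟩ := hemb.isOpen_iff.1 hO
      obtain ⟨I, u, hu, huO⟩ := isOpen_pi_iff.1 hO' (φ y) hy
      refine ⟨C (I.image fun w => (w, φ y w)), ⟨_, rfl⟩, ?_, ?_⟩
      · intro p hp
        obtain ⟨w, _, rfl⟩ := Finset.mem_image.1 hp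
        rfl
      · intro y' hy'
        refine huO fun w hw => ?_
        have := hy' (w, φ y w) (Finset.mem_image.2 ⟨w, hw, rfl⟩)
        rw [show φ y' w = φ y w from this]
        exact (hu w hw).2
  · refine Cardinal.mk_range_le.trans ?_
    rcases finite_or_infinite (V × Bool) with hfin | hinf
    · exact (Cardinal.mk_le_aleph0 (α := Finset (V × Bool))).trans (le_max_right _ _)
    · rw [Cardinal.mk_finset_of_infinite, Cardinal.mk_prod]
      simp only [Cardinal.lift_uzero, Cardinal.mk_bool]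
      refine (Cardinal.mul_le_max _ _).trans ?_
      simp only [max_le_iff]
      refine ⟨⟨?_, ?_⟩, ?_⟩
      · exact le_max_left _ _
      · exact (Cardinal.ofNat_lt_aleph0 (n := 2)).le.trans (le_max_right _ _)
      · exact le_max_right _ _

lemma mk_U : Cardinal.mk U = Cardinal.aleph 1 := by
  rw [Cardinal.mk_prod, mk_Om]
  simp only [Cardinal.lift_uzero, Cardinal.mk_nat]
  rw [Cardinal.mul_eq_left (Cardinal.aleph0_le_aleph 1) (Cardinal.aleph0_le_aleph 1)
    Cardinal.aleph0_ne_zero]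

lemma monolithic {c : Om → U → ℕ} [CompactSpace (KK c)] (hb : ∀ a, ∃ n, ∀ z, c a z < n)
    (A : Set (KK c)) : ∃ B : Set (Set (closure A)), TopologicalSpace.IsTopologicalBasis B ∧
      Cardinal.mk ↥B ≤ max (Cardinal.mk ↥A) Cardinal.aleph0 := by
  by_cases hA : A.Countable
  · obtain ⟨a, ha⟩ := closure_bdd hb hA
    obtain ⟨B, hB, hB2⟩ := basis_of (closure A) isClosed_closure {u : U | u.1 ≤ a}
      (fun z hz z' hz' hne => by
        obtain ⟨w, hw, hw2⟩ := sep hne
        refine ⟨w, ?_, hw2⟩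
        rcases hw with hw | hw
        · exact ha z hz w hw
        · exact ha z' hz' w hw)
    refine ⟨B, hB, hB2.trans ?_⟩
    have := (countable_below a).le_aleph0
    exact (max_le this le_rfl).trans (le_max_right _ _)
  · obtain ⟨B, hB, hB2⟩ := basis_of (closure A) isClosed_closure univ
      (fun z hz z' hz' hne => by
        obtain ⟨w, hw, hw2⟩ := sep hne
        exact ⟨w, mem_univ _, hw2⟩)
    refine ⟨B, hB, hB2.trans ?_⟩
    rw [Cardinal.mk_univ, mk_U]
    have h1 : Cardinal.aleph 1 ≤ Cardinal.mk ↥A := by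
      rw [← Cardinal.succ_aleph0, Order.succ_le_iff, ← not_le, Cardinal.le_aleph0_iff_set_countable]
      exact hA
    exact max_le (h1.trans (le_max_left _ _)) (le_max_right _ _)

lemma not_metrizable {c : Om → U → ℕ} [CompactSpace (KK c)] (hb : ∀ a, ∃ n, ∀ z, c a z < n) :
    ¬ TopologicalSpace.MetrizableSpace (KK c) := by
  intro h
  letI := TopologicalSpace.metrizableSpaceMetric (KK c)
  obtain ⟨A, hA, hA2⟩ := TopologicalSpace.exists_countable_dense (KK c)
  obtain ⟨a, ha⟩ := closure_bdd hb hA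
  obtain ⟨b, hab⟩ := exists_gt_Om a
  have := ha (pt (b, 0)) (by rw [hA2.closure_eq]; trivial) (b, 0) rfl
  exact absurd hab (not_lt.2 this)

/-- a nonempty open set of functions contains all the functions with some rational values at
some finitely many points -/
lemma exists_cyl {X : Type} [TopologicalSpace X] [Nonempty X] (W : Set C(X, ℝ))
    (hW : IsOpen[TopologicalSpace.induced (fun f : C(X, ℝ) => (⇑f : X → ℝ))
      (inferInstance : TopologicalSpace (X → ℝ))] W) (hne : W.Nonempty) :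
    ∃ (n : ℕ) (x : ℕ → X) (q : ℕ →₀ ℚ), (∀ i < n, ∀ j < n, x i = x j → i = j) ∧
      ∀ g : C(X, ℝ), (∀ j < n, g (x j) = (q j : ℝ)) → g ∈ W := by
  classical
  obtain ⟨f, hf⟩ := hne
  obtain ⟨O, hO, rfl⟩ := isOpen_induced_iff.1 hW
  obtain ⟨I, u, hu, huO⟩ := isOpen_pi_iff.1 hO (⇑f) hf
  have hr : ∀ x ∈ I, ∃ r : ℚ, (r : ℝ) ∈ u x := fun x hx =>
    Rat.denseRange_cast.exists_mem_open (hu x hx).1 ⟨_, (hu x hx).2⟩
  choose! r hr using hr
  let e := I.equivFin
  let x : ℕ → X := fun j => if h : j < I.card then (e.symm ⟨j, h⟩).1 else Classical.arbitrary X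
  refine ⟨I.card, x, Finsupp.onFinset (Finset.range I.card)
    (fun j => if j < I.card then r (x j) else 0) (fun j hj => ?_), ?_, ?_⟩
  · by_contra hcon
    rw [Finset.mem_range] at hcon
    exact hj (if_neg hcon)
  · intro i hi j hj hij
    simp only [x, dif_pos hi, dif_pos hj] at hij
    have := e.symm.injective (Subtype.ext hij)
    exact congrArg Fin.val this
  · intro g hg
    refine huO fun y hy => ?_
    have h1 : x (e ⟨y, hy⟩).1 = y := by
      simp only [x, dif_pos (e ⟨y, hy⟩).2]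
      simp
    have h2 := hg (e ⟨y, hy⟩).1 (e ⟨y, hy⟩).2
    rw [h1] at h2
    simp only [Finsupp.onFinset_apply, if_pos (e ⟨y, hy⟩).2, h1] at h2
    show g y ∈ u y
    rw [h2]
    exact hr y hy

/-- thinning out a family of sequences -/
lemma thin {ι X : Type} (x : ι → ℕ → X) (S : Set ι) (hS : ¬ S.Countable) (n : ℕ) :
    ∃ S' ⊆ S, ¬ S'.Countable ∧ ∀ j < n, (∃ y, ∀ α ∈ S', x α j = y) ∨
      (∀ y, {α ∈ S' | x α j = y}.Countable) := by
  induction n with
  | zero => exact ⟨S, Subset.rfl, hS, fun j hj => absurd hj (Nat.not_lt_zero _)⟩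
  | succ n ih =>
    obtain ⟨S', hS', hS'2, h⟩ := ih
    by_cases hy : ∀ y, {α ∈ S' | x α n = y}.Countable
    · refine ⟨S', hS', hS'2, fun j hj => ?_⟩
      rcases Nat.lt_succ_iff_lt_or_eq.1 hj with hj | rfl
      · exact h j hj
      · exact Or.inr hy
    · push Not at hy
      obtain ⟨y, hy⟩ := hy
      refine ⟨{α ∈ S' | x α n = y}, fun α hα => hS' hα.1, hy, fun j hj => ?_⟩
      rcases Nat.lt_succ_iff_lt_or_eq.1 hj with hj | rfl
      · rcases h j hj with ⟨y', hy'⟩ | h'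
        · exact Or.inl ⟨y', fun α hα => hy' α hα.1⟩
        · refine Or.inr fun y' => (h' y').mono ?_
          intro α hα
          exact ⟨hα.1.1, hα.2⟩
      · exact Or.inl ⟨y, fun α hα => hα.2⟩

/-- a locally constant function with prescribed values at finitely many points -/
lemma exists_fn {c : Om → U → ℕ} (n : ℕ) (z : ℕ → KK c) (q : ℕ → ℝ)
    (hz : ∀ i < n, ∀ j < n, z i = z j → i = j) :
    ∃ (T : Finset U) (g : C(KK c, ℝ)), ∀ j < n, ∀ y : KK c,
      (∀ w ∈ T, (Mem y w ↔ Mem (z j) w)) → g y = q j := by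
  classical
  have hw : ∀ i j, ∃ w, i < n → j < n → i ≠ j → ¬ (Mem (z i) w ↔ Mem (z j) w) := by
    intro i j
    by_cases h : i < n ∧ j < n ∧ i ≠ j
    · obtain ⟨w, _, hw⟩ := sep (fun h' => h.2.2 (hz i h.1 j h.2.1 h'))
      exact ⟨w, fun _ _ _ => hw⟩
    · exact ⟨Classical.arbitrary U, fun h1 h2 h3 => absurd ⟨h1, h2, h3⟩ h⟩
  choose w hw using hw
  let T : Finset U := (Finset.range n ×ˢ Finset.range n).image fun p => w p.1 p.2
  let ρ : KK c → (T → Bool) := fun y t => Phi c y t.1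
  have hρ : Continuous ρ := continuous_pi fun t => (continuous_apply t.1).comp (cont_Phi c)
  let g0 : (T → Bool) → ℝ := fun b => if h : ∃ j, j < n ∧ ρ (z j) = b then q h.choose else 0
  refine ⟨T, ⟨fun y => g0 (ρ y), (continuous_of_discreteTopology (f := g0)).comp hρ⟩, ?_⟩
  intro j hj y hy
  have h1 : ρ y = ρ (z j) := funext fun t => Phi_eq.2 (hy t.1 t.2)
  show g0 (ρ y) = q j
  have h2 : ∃ j, j < n ∧ ρ (z j) = ρ y := ⟨j, hj, h1.symm⟩
  have h3 : g0 (ρ y) = q h2.choose := dif_pos h2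
  rw [h3]
  obtain ⟨h4, h5⟩ := h2.choose_spec
  congr 1
  by_contra hne
  refine hw _ _ h4 hj hne ?_
  have h6 := h5.trans h1
  have h7 : w h2.choose j ∈ T := Finset.mem_image.2 ⟨(h2.choose, j),
    Finset.mem_product.2 ⟨Finset.mem_range.2 h4, Finset.mem_range.2 hj⟩, rfl⟩
  exact Phi_eq.1 (congrFun h6 ⟨_, h7⟩)

lemma exists_enc : ∃ e : Finset (ℕ × U) → Om, Function.Injective e := by
  have h : Cardinal.mk (Finset (ℕ × U)) ≤ Cardinal.mk Om := by
    haveI : Infinite (ℕ × U) := inferInstance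
    rw [Cardinal.mk_finset_of_infinite, Cardinal.mk_prod, mk_U, mk_Om]
    simp only [Cardinal.lift_uzero, Cardinal.mk_nat, Cardinal.lift_aleph0]
    rw [Cardinal.mul_eq_right (Cardinal.aleph0_le_aleph 1) (Cardinal.aleph0_le_aleph 1)
      Cardinal.aleph0_ne_zero]
  obtain ⟨e⟩ := h
  exact ⟨e, e.injective⟩

/-- a finite set of countable ordinals is bounded -/
lemma bdd_finset (F : Finset Om) : ∃ b, ∀ a ∈ F, a < b :=
  bdd_of_countable F.countable_toSet

/-- the main lemma: point-finite families are countable -/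
lemma main_count (A : Om → Set Om) (hA : ∀ S E : Set Om, IsClubS E → ∃ a ∈ E, A a = S ∩ Iio a)
    (enc : Finset (ℕ × U) → Om) (henc : Function.Injective enc) (c : Om → U → ℕ)
    (hc : ∀ a, Q (fun a => {t | enc t < a ∧ enc t ∈ A a}) a c (c a))
    (𝒰 : Set (Set C(KK c, ℝ)))
    (hO : ∀ W ∈ 𝒰, IsOpen[TopologicalSpace.induced (fun f : C(KK c, ℝ) => (⇑f : KK c → ℝ))
                (inferInstance : TopologicalSpace (KK c → ℝ))] W ∧ W.Nonempty)
    (hF : ∀ f : C(KK c, ℝ), {W | W ∈ 𝒰 ∧ f ∈ W}.Finite) : 𝒰.Countable := by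
  classical
  by_contra hunc
  haveI : Nonempty (KK c) := ⟨inf⟩
  have hex : ∀ W : Set C(KK c, ℝ), ∃ (n : ℕ) (x : ℕ → KK c) (q : ℕ →₀ ℚ), W ∈ 𝒰 →
      (∀ i < n, ∀ j < n, x i = x j → i = j) ∧
      ∀ g : C(KK c, ℝ), (∀ j < n, g (x j) = (q j : ℝ)) → g ∈ W := by
    intro W
    by_cases hW : W ∈ 𝒰
    · obtain ⟨n, x, q, h⟩ := exists_cyl W (hO W hW).1 (hO W hW).2
      exact ⟨n, x, q, fun _ => h⟩
    · exact ⟨0, fun _ => inf, 0, fun h => absurd h hW⟩
  choose nn x qq hx using hex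
  obtain ⟨n, q, hnq⟩ : ∃ n q, ¬ {W ∈ 𝒰 | nn W = n ∧ qq W = q}.Countable := by
    by_contra hcon
    push Not at hcon
    refine hunc ((countable_iUnion fun n => countable_iUnion fun q => hcon n q).mono ?_)
    intro W hW
    simp only [mem_iUnion]
    exact ⟨nn W, qq W, hW, rfl, rfl⟩
  obtain ⟨S', hS'1, hS'2, hS'3⟩ := thin x _ hnq n
  let E : Set ℕ := {j | j < n ∧ ∀ y, {α ∈ S' | x α j = y}.Countable}
  let S : Set (Set C(KK c, ℝ)) := {α ∈ S' | ∀ j ∈ E, x α j ≠ inf}
  have hSunc : ¬ S.Countable := by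
    intro hcon
    refine hS'2 ((hcon.union (countable_iUnion fun j : E => j.2.2 inf)).mono ?_)
    intro α hα
    by_cases h : ∀ j ∈ E, x α j ≠ inf
    · exact Or.inl ⟨hα, h⟩
    · push Not at h
      obtain ⟨j, hj, hj2⟩ := h
      exact Or.inr (mem_iUnion.2 ⟨⟨j, hj⟩, hα, hj2⟩)
  have hSS : ∀ α ∈ S, α ∈ 𝒰 ∧ nn α = n ∧ qq α = q := fun α hα => hS'1 hα.1
  have hSx : ∀ α ∈ S, ∀ i < n, ∀ j < n, x α i = x α j → i = j := by
    intro α hα
    have := (hx α (hSS α hα).1).1
    rwa [(hSS α hα).2.1] at this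
  have hSg : ∀ α ∈ S, ∀ g : C(KK c, ℝ), (∀ j < n, g (x α j) = (q j : ℝ)) → g ∈ α := by
    intro α hα
    have := (hx α (hSS α hα).1).2
    rwa [(hSS α hα).2.1, (hSS α hα).2.2] at this
  -- the constants
  have hconst : ∀ j, ∃ y, j < n → j ∉ E → ∀ α ∈ S, x α j = y := by
    intro j
    by_cases h : j < n ∧ j ∉ E
    · rcases hS'3 j h.1 with ⟨y, hy⟩ | h'
      · exact ⟨y, fun _ _ α hα => hy α hα.1⟩
      · exact absurd ⟨h.1, h'⟩ h.2
    · exact ⟨inf, fun h1 h2 => absurd ⟨h1, h2⟩ h⟩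
  choose y hy using hconst
  -- the coded tuples
  have hpt : ∀ α ∈ S, ∀ j ∈ E, ∃ u, x α j = pt u := by
    intro α hα j hj
    rcases KK_cases (x α j) with h | h
    · exact absurd h (hα.2 j hj)
    · exact h
  have hu : ∀ (α : Set C(KK c, ℝ)) (j : ℕ), ∃ u, α ∈ S → j ∈ E → x α j = pt u := by
    intro α j
    by_cases h : α ∈ S ∧ j ∈ E
    · obtain ⟨u, hu⟩ := hpt α h.1 j h.2
      exact ⟨u, fun _ _ => hu⟩
    · exact ⟨Classical.arbitrary U, fun h1 h2 => absurd ⟨h1, h2⟩ h⟩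
  choose uu huu using hu
  let t : Set C(KK c, ℝ) → Finset (ℕ × U) := fun α =>
    ((Finset.range n).filter (· ∈ E)).image fun j => (j, uu α j)
  have ht : ∀ α p, p ∈ t α ↔ ∃ j, j ∈ E ∧ p = (j, uu α j) := by
    intro α p
    simp only [t, Finset.mem_image, Finset.mem_filter, Finset.mem_range]
    constructor
    · rintro ⟨j, ⟨_, hj⟩, rfl⟩
      exact ⟨j, hj, rfl⟩
    · rintro ⟨j, hj, rfl⟩
      exact ⟨j, ⟨hj.1, hj⟩, rfl⟩
  -- unboundedness
  have hesc : ∀ γ : Om, ∃ α ∈ S, ∀ p ∈ t α, γ < p.2.1 := by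
    intro γ
    by_contra hcon
    push Not at hcon
    refine hSunc (((countable_iUnion fun j : E => ((countable_below γ).biUnion
      fun u _ => j.2.2 (pt u)))).mono ?_)
    intro α hα
    obtain ⟨p, hp, hpγ⟩ := hcon α hα
    obtain ⟨j, hj, rfl⟩ := (ht α p).1 hp
    refine mem_iUnion.2 ⟨⟨j, hj⟩, mem_iUnion₂.2 ⟨uu α j, hpγ, hα.1, huu α j hα hj⟩⟩
  choose αγ hαS hαγ using hesc
  have hbd : ∀ γ : Om, ∃ b : Om, enc (t (αγ γ)) < b ∧ (∀ p ∈ t (αγ γ), p.2.1 < b) ∧
      ∀ j < n, ∀ u, y j = pt u → u.1 < b := by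
    intro γ
    obtain ⟨b, hb⟩ := bdd_of_countable (A := {enc (t (αγ γ))} ∪
      ((t (αγ γ)).image fun p => p.2.1 : Finset Om) ∪
      {b | ∃ j, ∃ u, y j = pt u ∧ b = u.1}) (by
        refine ((countable_singleton _).union (Finset.countable_toSet _)).union ?_
        have : {b : Om | ∃ j, ∃ u, y j = pt u ∧ b = u.1} ⊆
            range (fun j : ℕ => if h : ∃ u, y j = pt u then h.choose.1 else
              Classical.arbitrary Om) := by
          rintro b ⟨j, u, hju, rfl⟩
          refine ⟨j, ?_⟩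
          have h : ∃ u, y j = pt u := ⟨u, hju⟩
          simp only [dif_pos h]
          have h2 := h.choose_spec
          have h3 : (pt u : KK c) = pt h.choose := hju.symm.trans h2
          rw [← pt_inj h3]
        exact (countable_range _).mono this)
    refine ⟨b, hb _ (Or.inl (Or.inl rfl)), fun p hp => hb _ (Or.inl (Or.inr ?_)),
      fun j _ u hu => hb _ (Or.inr ⟨j, u, hu, rfl⟩)⟩
    exact Finset.mem_coe.2 (Finset.mem_image.2 ⟨p, hp, rfl⟩)
  choose h hh1 hh2 hh3 using hbd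
  obtain ⟨a, ⟨ha1, ha2⟩, haA⟩ := hA (enc '' (t '' S)) _ (club_closure h)
  obtain ⟨b0, hb0⟩ := ha1.1
  have hD : ∀ s : Finset (ℕ × U), (enc s < a ∧ enc s ∈ A a) ↔ (enc s < a ∧ ∃ α ∈ S, t α = s) := by
    intro s
    rw [haA]
    constructor
    · rintro ⟨h1, ⟨s', ⟨α, hα, rfl⟩, hs'⟩, _⟩
      exact ⟨h1, α, hα, henc hs'⟩
    · rintro ⟨h1, α, hα, rfl⟩
      exact ⟨h1, ⟨t α, ⟨α, hα, rfl⟩, rfl⟩, h1⟩
  obtain ⟨_, _, hQ⟩ := hc a
  obtain ⟨l, hl1, hl2, hl3⟩ := hQ (by
      refine ⟨⟨n, ?_⟩, ?_⟩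
      · intro s hs p hp
        obtain ⟨_, α, hα, rfl⟩ := (hD s).1 hs
        obtain ⟨j, hj, rfl⟩ := (ht α p).1 hp
        exact hj.1
      · intro s hs p hp p' hp' hpp
        obtain ⟨_, α, hα, rfl⟩ := (hD s).1 hs
        obtain ⟨j, hj, rfl⟩ := (ht α p).1 hp
        obtain ⟨j', hj', rfl⟩ := (ht α p').1 hp'
        have h1 : uu α j = uu α j' := hpp
        have h2 : x α j = x α j' := by rw [huu α j hα hj, huu α j' hα hj', h1]
        rw [hSx α hα j hj.1 j' hj'.1 h2]) (by
      intro G hG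
      -- a bound for the stages of the members of `G`
      have : ∃ γ < a, ∀ v ∈ G, v.1 ≤ γ := by
        induction G using Finset.induction_on with
        | empty => exact ⟨b0, hb0, by simp⟩
        | insert v G hv ih =>
          obtain ⟨γ, hγ, hγ2⟩ := ih fun v hv => hG v (Finset.mem_insert_of_mem hv)
          refine ⟨max γ v.1, max_lt hγ (hG v (Finset.mem_insert_self _ _)), fun v' hv' => ?_⟩
          rcases Finset.mem_insert.1 hv' with rfl | hv'
          · exact le_max_right _ _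
          · exact (hγ2 v' hv').trans (le_max_left _ _)
      obtain ⟨γ, hγ, hγ2⟩ := this
      refine ⟨t (αγ γ), (hD _).2 ⟨(hh1 γ).trans (ha2 γ hγ), αγ γ, hαS γ, rfl⟩, fun p hp => ?_⟩
      refine ⟨(hh2 γ p hp).trans (ha2 γ hγ), fun v hv hpv => ?_⟩
      exact absurd (hαγ γ p hp) (not_lt.2 ((Nb_le hpv).trans (hγ2 v hv))))
  have hlα : ∀ k, ∃ α ∈ S, t α = l k := fun k => ((hD (l k)).1 (hl1 k)).2
  choose αk hαk1 hαk2 using hlα
  -- the limit points
  let z : ℕ → KK c := fun j => if j ∈ E then pt (a, j) else y j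
  have hz : ∀ i < n, ∀ j < n, z i = z j → i = j := by
    intro i hi j hj hij
    have hyne : ∀ i < n, ∀ j, y i ≠ pt (a, j) := by
      intro i hi j hcon
      have := hh3 b0 i hi _ hcon
      exact absurd (this.trans (ha2 b0 hb0)) (lt_irrefl _)
    by_cases hiE : i ∈ E <;> by_cases hjE : j ∈ E
    · simp only [z, if_pos hiE, if_pos hjE] at hij
      exact congrArg Prod.snd (pt_inj hij)
    · simp only [z, if_pos hiE, if_neg hjE] at hij
      exact absurd hij.symm (hyne j hj i)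
    · simp only [z, if_neg hiE, if_pos hjE] at hij
      exact absurd hij (hyne i hi j)
    · simp only [z, if_neg hiE, if_neg hjE] at hij
      rw [← hy i hi hiE (αk 0) (hαk1 0), ← hy j hj hjE (αk 0) (hαk1 0)] at hij
      exact hSx (αk 0) (hαk1 0) i hi j hj hij
  obtain ⟨T, g, hg⟩ := exists_fn n z (fun j => (q j : ℝ)) hz
  have hLC : ∀ a, LC c a (c a) := fun a => (hc a).1
  -- convergence
  have hconv : ∀ w : U, ∃ m, ∀ k ≥ m, ∀ j < n, (Mem (x (αk k) j) w ↔ Mem (z j) w) := by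
    intro w
    have h1 : ∀ j, ∃ m, ∀ k ≥ m, j < n → (Mem (x (αk k) j) w ↔ Mem (z j) w) := by
      intro j
      by_cases hjE : j ∈ E
      · obtain ⟨F, hF1, hF2⟩ := decide_all hLC (a, j) w
        have h2 : ∀ F' : Finset U, (∀ v ∈ F', v.1 < a) → ∃ m, ∀ k ≥ m, ∀ p ∈ l k, ∀ v ∈ F',
            p.2 ∉ Nb c v := by
          intro F'
          induction F' using Finset.induction_on with
          | empty => exact fun _ => ⟨0, by simp⟩
          | insert v F' hv ih =>
            intro hF'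
            obtain ⟨m, hm⟩ := ih fun v hv => hF' v (Finset.mem_insert_of_mem hv)
            obtain ⟨m', hm'⟩ := hl3 v (hF' v (Finset.mem_insert_self _ _))
            refine ⟨max m m', fun k hk p hp v' hv' => ?_⟩
            rcases Finset.mem_insert.1 hv' with rfl | hv'
            · exact hm' k ((le_max_right _ _).trans hk) p hp
            · exact hm k ((le_max_left _ _).trans hk) p hp v' hv'
        obtain ⟨m, hm⟩ := h2 F hF1
        refine ⟨m, fun k hk hj => ?_⟩
        have hp : (j, uu (αk k) j) ∈ l k := by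
          rw [← hαk2 k]
          exact (ht _ _).2 ⟨j, hjE, rfl⟩
        have h3 := hl2 k _ hp
        simp only [z, if_pos hjE]
        rw [huu (αk k) j (hαk1 k) hjE, mem_pt, mem_pt]
        exact hF2 _ (Or.inr h3) fun v hv => hm k hk _ hp v hv
      · refine ⟨0, fun k _ hj => ?_⟩
        simp only [z, if_neg hjE]
        rw [hy j hj hjE (αk k) (hαk1 k)]
    choose m hm using h1
    refine ⟨(Finset.range n).sup m, fun k hk j hj => hm j k ?_ hj⟩
    exact (Finset.le_sup (f := m) (Finset.mem_range.2 hj)).trans hk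
  have hconv2 : ∃ m, ∀ k ≥ m, ∀ w ∈ T, ∀ j < n, (Mem (x (αk k) j) w ↔ Mem (z j) w) := by
    choose m hm using hconv
    refine ⟨T.sup m, fun k hk w hw j hj => hm w k ?_ j hj⟩
    exact (Finset.le_sup (f := m) hw).trans hk
  obtain ⟨m, hm⟩ := hconv2
  have hgα : ∀ k ≥ m, g ∈ αk k := by
    intro k hk
    refine hSg (αk k) (hαk1 k) g fun j hj => ?_
    exact hg j hj _ fun w hw => hm k hk w hw j hj
  have hfin := hF g
  by_cases hEne : E.Nonempty
  · -- infinitely many sets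
    obtain ⟨j, hj⟩ := hEne
    have h1 : ∀ W ∈ {W | W ∈ 𝒰 ∧ g ∈ W}, ∀ᶠ k in atTop, αk k ≠ W := by
      intro W _
      by_cases hW : ∃ k, αk k = W
      · obtain ⟨k0, hk0⟩ := hW
        have hp : (j, uu W j) ∈ l k0 := by
          rw [← hαk2 k0, hk0]
          exact (ht _ _).2 ⟨j, hj, rfl⟩
        obtain ⟨m', hm'⟩ := hl3 (uu W j) (hl2 k0 _ hp).1
        filter_upwards [eventually_ge_atTop m'] with k hk hcon
        have hp' : (j, uu W j) ∈ l k := by
          rw [← hαk2 k, hcon]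
          exact (ht _ _).2 ⟨j, hj, rfl⟩
        exact hm' k hk _ hp' (self_mem_Nb c _)
      · push Not at hW
        exact Eventually.of_forall hW
    have h2 := (Filter.eventually_all_finite hfin).2 h1
    obtain ⟨k, hk, hk2⟩ := (h2.and (eventually_ge_atTop m)).exists
    exact hk (αk k) ⟨(hSS _ (hαk1 k)).1, hgα k hk2⟩ rfl
  · -- all the points are constant
    rw [not_nonempty_iff_eq_empty] at hEne
    refine hSunc (hfin.countable.mono ?_)
    intro α hα
    refine ⟨(hSS α hα).1, hSg α hα g fun j hj => ?_⟩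
    have hjE : j ∉ E := by rw [hEne]; exact fun h => h
    refine hg j hj _ fun w _ => ?_
    simp only [z, if_neg hjE]
    rw [hy j hj hjE α hα]

/-- diamond gives the space -/
theorem main (hd : DiamondS) : ∃ (X : Type) (_ : TopologicalSpace X), CompactSpace X ∧ T2Space X ∧
    (∀ A : Set X, ∃ B : Set (Set (closure A)),
      TopologicalSpace.IsTopologicalBasis B ∧
        Cardinal.mk ↥B ≤ max (Cardinal.mk ↥A) Cardinal.aleph0) ∧
    (∀ 𝒰 : Set (Set C(X, ℝ)),
      (∀ U ∈ 𝒰,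
        IsOpen[TopologicalSpace.induced (fun f : C(X, ℝ) => (⇑f : X → ℝ))
          (inferInstance : TopologicalSpace (X → ℝ))] U ∧ U.Nonempty) →
      (∀ f : C(X, ℝ), {U | U ∈ 𝒰 ∧ f ∈ U}.Finite) →
      𝒰.Countable) ∧
    ¬ TopologicalSpace.MetrizableSpace X := by
  obtain ⟨A, hA⟩ := hd
  obtain ⟨enc, henc⟩ := exists_enc
  obtain ⟨c, hc⟩ := exists_space (fun a => {t | enc t < a ∧ enc t ∈ A a})
  haveI : CompactSpace (KK c) := compact_KK fun a => (hc a).1
  exact ⟨KK c, inferInstance, inferInstance, inferInstance, monolithic fun a => (hc a).2.1,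
    main_count A hA enc henc c hc, not_metrizable fun a => (hc a).2.1⟩

lemma old_diamond (h : Diamond) : DiamondS := by
  obtain ⟨A, hA⟩ := h
  refine ⟨fun a => {x | x < a ∧ A a x}, fun S E hE => ?_⟩
  obtain ⟨a, ha, hb⟩ := hA (fun x => x ∈ S) (fun x => x ∈ E) ⟨fun b => by
      obtain ⟨a, h1, h2⟩ := hE.1 b
      exact ⟨a, h2, h1⟩, fun a ha h => by
      refine hE.2 a ha ?_
      intro b hb
      obtain ⟨c, ⟨h1, h2⟩, h3⟩ := h b hb
      exact ⟨c, h3, h1, h2⟩⟩
  refine ⟨a, ha, ?_⟩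
  ext x
  constructor
  · rintro ⟨h1, h2⟩
    exact ⟨(hb x h1).2 h2, h1⟩
  · rintro ⟨h1, h2⟩
    exact ⟨h2, (hb x h2).1 h1⟩

/-- the counterexample under diamond -/
theorem counterexample (h : Diamond) : ∃ (X : Type) (_ : TopologicalSpace X), CompactSpace X ∧
    T2Space X ∧ Monolithic X ∧ CountablePointFiniteCellularity X ∧
    ¬ TopologicalSpace.MetrizableSpace X :=
  main (old_diamond h)

end Pool.Agent.Helper647.MM
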