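import Pool.Agent.Helper647.FU.Fin

set_option autoImplicit false

open Set Cardinal Topology

namespace Pool.Agent.Helper647.FU

section poset

variable {T X W : Type} [TopologicalSpace T] (Z : Set T) (e : T → X → ℝ) (Pos : Set T → Prop)


abbrev Blk (T X W : Type) : Type := Elt T X W × Elt T X W

structure VB (B : Blk T X W) : Prop where
  v1 : Valid Z e Pos B.1
  v2 : Valid Z e Pos B.2
  c : code B.1 ∈ range B.2.m

def RB (B C : Blk T X W) : Prop := code B.1 ∈ range C.1.m ∧ code B.2 ∈ range C.1.m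

/-- the elements of a list of blocks -/
def fl (l : List (Blk T X W)) : List (Elt T X W) := l.flatMap fun B => [B.1, B.2]

structure C2 (W : Type) where
  l : List (Blk T X W)
  G : Finset X
  val : ∀ B ∈ l, VB Z e Pos B
  pw : l.Pairwise RB

variable {Z e Pos} in
theorem C2.ext' {p q : C2 Z e Pos W} (h1 : p.l = q.l) (h2 : p.G = q.G) : p = q := by
  cases p; cases q; cases h1; cases h2; rfl

instance : PartialOrder (C2 Z e Pos W) where
  le p q := q.l.Sublist p.l ∧ q.G ⊆ p.G ∧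
    ∀ B ∈ p.l, B ∉ q.l → ∀ y ∈ q.G, |e B.1.z y - e B.2.z y| < 1
  le_refl p := ⟨List.Sublist.refl _, Finset.Subset.refl _, fun B h1 h2 => absurd h1 h2⟩
  le_trans p q r h1 h2 := by
    refine ⟨h2.1.trans h1.1, h2.2.1.trans h1.2.1, fun B hB hBr y hy => ?_⟩
    by_cases h : B ∈ q.l
    · exact h2.2.2 B h hBr y hy
    · exact h1.2.2 B hB h y (h2.2.1 hy)
  le_antisymm p q h1 h2 := C2.ext' (h2.1.antisymm h1.1) (Finset.Subset.antisymm h2.2.1 h1.2.1)

variable {Z e Pos} in
theorem C2_le {p q : C2 Z e Pos W} : p ≤ q ↔ q.l.Sublist p.l ∧ q.G ⊆ p.G ∧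
    ∀ B ∈ p.l, B ∉ q.l → ∀ y ∈ q.G, |e B.1.z y - e B.2.z y| < 1 := Iff.rfl

structure NG (N : Set (C2 Z e Pos W ⊕ Set (C2 Z e Pos W) ⊕ U T X W)) : Prop where
  good : Good Z e Pos (UP N)
  two : ∀ p : C2 Z e Pos W, Sum.inl p ∈ N → ∀ a ∈ fl p.l, code a ∈ UP N
  twoG : ∀ p : C2 Z e Pos W, Sum.inl p ∈ N → ∀ y ∈ p.G, U.x y ∈ UP N
  three : ∀ p : C2 Z e Pos W, (∀ a ∈ fl p.l, code a ∈ UP N) → (∀ y ∈ p.G, U.x y ∈ UP N) →
    Sum.inl p ∈ N
  four : ∀ (p : C2 Z e Pos W) (D : Set (C2 Z e Pos W)), Sum.inl p ∈ N →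
    Sum.inr (Sum.inl D) ∈ N →
    U.s {t | ∃ r ∈ D, ∃ l', r.l = p.l ++ l' ∧ (fl l').map Elt.z = t} ∈ UP N
  five : ∀ (p : C2 Z e Pos W) (D : Set (C2 Z e Pos W)) (t : List T), Sum.inl p ∈ N →
    Sum.inr (Sum.inl D) ∈ N → (∀ a ∈ t, U.z a ∈ UP N) →
    (∃ r ∈ D, ∃ l', r.l = p.l ++ l' ∧ (fl l').map Elt.z = t) →
    ∃ r ∈ D, Sum.inl r ∈ N ∧ ∃ l', r.l = p.l ++ l' ∧ (fl l').map Elt.z = t

theorem ng_closure (W : Type) (S0 : List (U T X W) → Set (U T X W))
    (hS0 : ∀ l, (S0 l).Countable) (hS0' : ∀ M, ClosedUnder S0 M → Good Z e Pos M) :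
    ∃ F : List (C2 Z e Pos W ⊕ Set (C2 Z e Pos W) ⊕ U T X W) →
      Set (C2 Z e Pos W ⊕ Set (C2 Z e Pos W) ⊕ U T X W), (∀ l, (F l).Countable) ∧
      ∀ N, ClosedUnder F N → NG Z e Pos N := by
  classical
  let B := C2 Z e Pos W ⊕ Set (C2 Z e Pos W) ⊕ U T X W
  let iU : U T X W → B := fun u => Sum.inr (Sum.inr u)
  have iU_inj : Function.Injective iU := fun a b h => by
    have := Sum.inr.inj h
    exact Sum.inr.inj this
  let uOf : B → Option (U T X W) := fun b => match b with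
    | Sum.inl _ => none
    | Sum.inr (Sum.inl _) => none
    | Sum.inr (Sum.inr u) => some u
  let g2 : B → Set B := fun b => match b with
    | Sum.inl p => ((fun a => iU (code a)) '' {a | a ∈ fl p.l}) ∪
        ((fun y => iU (U.x y)) '' (p.G : Set X))
    | Sum.inr _ => ∅
  let g4 : B × B → B := fun x => match x with
    | (Sum.inl p, Sum.inr (Sum.inl D)) =>
        iU (U.s {t | ∃ r ∈ D, ∃ l', r.l = p.l ++ l' ∧ (fl l').map Elt.z = t})
    | (c, _) => c
  let g5 : B × B × List T → B := fun x => match x with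
    | (Sum.inl p, Sum.inr (Sum.inl D), t) =>
        if h : ∃ r, r ∈ D ∧ ∃ l', r.l = p.l ++ l' ∧ (fl l').map Elt.z = t then Sum.inl h.choose
        else Sum.inl p
    | (c, _, _) => c
  let F1 : List B → Set B := fun l => iU '' S0 (l.filterMap uOf)
  let F2 : List B → Set B := fun l => ⋃ c ∈ {b | b ∈ l}, g2 c
  let F3 : List B → Set B := fun l => Sum.inl '' {p : C2 Z e Pos W |
    (∀ a ∈ fl p.l, iU (code a) ∈ l) ∧ ∀ y ∈ p.G, iU (U.x y) ∈ l}
  let F4 : List B → Set B := fun l => g4 '' ({b | b ∈ l} ×ˢ {b | b ∈ l})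
  let F5 : List B → Set B := fun l => g5 '' ({b | b ∈ l} ×ˢ {b | b ∈ l} ×ˢ
    {t : List T | ∀ a ∈ t, a ∈ {a | iU (U.z a) ∈ l}})
  have hl : ∀ l : List B, {b | b ∈ l}.Countable := fun l => (List.finite_toSet l).countable
  refine ⟨fun l => F1 l ∪ F2 l ∪ F3 l ∪ F4 l ∪ F5 l, ?_, ?_⟩
  · intro l
    refine ((((?_ : Set.Countable _).union ?_).union ?_).union ?_).union ?_
    · exact (hS0 _).image _
    · refine (hl l).biUnion ?_
      intro c _
      rcases c with p | c
      · exact (((List.finite_toSet (fl p.l)).countable).image _).union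
          ((p.G.countable_toSet).image _)
      · exact countable_empty
    · refine Set.Countable.image ?_ _
      have h1 : {u : U T X W | iU u ∈ l}.Countable := (hl l).preimage iU_inj
      have h1x : {y : X | iU (U.x y) ∈ l}.Countable := by
        have hx : Function.Injective (fun a : X => iU (U.x a)) :=
          fun a b h => U.x.inj (iU_inj h)
        exact (hl l).preimage hx
      have h2 := (countable_lists (h1.prod h1)).prod (countable_lists h1x)
      have h3 : Function.Injective (fun p : C2 Z e Pos W =>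
          (p.l.map (fun B => (code B.1, code B.2)), p.G.toList)) := by
        intro p q hpq
        simp only [Prod.mk.injEq] at hpq
        refine C2.ext' ?_ ?_
        · refine List.map_injective_iff.2 ?_ hpq.1
          intro B C hBC
          simp only [Prod.mk.injEq] at hBC
          exact Prod.ext (code_inj hBC.1) (code_inj hBC.2)
        · rw [← Finset.toList_toFinset p.G, ← Finset.toList_toFinset q.G, hpq.2]
      refine (h2.preimage h3).mono ?_
      rintro p ⟨hp1, hp2⟩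
      refine ⟨?_, ?_⟩
      · intro u hu
        obtain ⟨b, hb, rfl⟩ := List.mem_map.1 hu
        refine ⟨hp1 b.1 ?_, hp1 b.2 ?_⟩
        · exact List.mem_flatMap.2 ⟨b, hb, by simp⟩
        · exact List.mem_flatMap.2 ⟨b, hb, by simp⟩
      · intro y hy
        exact hp2 y (Finset.mem_toList.1 hy)
    · exact (((hl l).prod (hl l))).image _
    · refine (((hl l).prod ((hl l).prod (countable_lists ?_)))).image _
      have hz : Function.Injective (fun a : T => iU (U.z a)) := fun a b h => U.z.inj (iU_inj h)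
      exact (hl l).preimage hz
  · intro N hN
    have hN1 : ∀ l : List B, (∀ a ∈ l, a ∈ N) → F1 l ⊆ N := fun l h b hb =>
      hN l h (Or.inl (Or.inl (Or.inl (Or.inl hb))))
    have hN2 : ∀ l : List B, (∀ a ∈ l, a ∈ N) → F2 l ⊆ N := fun l h b hb =>
      hN l h (Or.inl (Or.inl (Or.inl (Or.inr hb))))
    have hN3 : ∀ l : List B, (∀ a ∈ l, a ∈ N) → F3 l ⊆ N := fun l h b hb =>
      hN l h (Or.inl (Or.inl (Or.inr hb)))
    have hN4 : ∀ l : List B, (∀ a ∈ l, a ∈ N) → F4 l ⊆ N := fun l h b hb =>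
      hN l h (Or.inl (Or.inr hb))
    have hN5 : ∀ l : List B, (∀ a ∈ l, a ∈ N) → F5 l ⊆ N := fun l h b hb =>
      hN l h (Or.inr hb)
    refine ⟨?_, ?_, ?_, ?_, ?_, ?_⟩
    · apply hS0'
      intro m hm u hu
      apply hN1 (m.map iU)
      · intro a ha
        obtain ⟨v, hv, rfl⟩ := List.mem_map.1 ha
        exact hm v hv
      · refine ⟨u, ?_, rfl⟩
        have : (m.map iU).filterMap uOf = m := by
          rw [List.filterMap_map]
          have : uOf ∘ iU = some := by funext v; rfl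
          rw [this, List.filterMap_some]
        rw [this]
        exact hu
    · intro p hp a ha
      apply hN2 [Sum.inl p]
      · intro b hb
        rw [List.mem_singleton] at hb
        rw [hb]; exact hp
      · refine mem_biUnion (x := Sum.inl p) (List.mem_singleton.2 rfl) ?_
        exact Or.inl ⟨a, ha, rfl⟩
    · intro p hp y hy
      apply hN2 [Sum.inl p]
      · intro b hb
        rw [List.mem_singleton] at hb
        rw [hb]; exact hp
      · refine mem_biUnion (x := Sum.inl p) (List.mem_singleton.2 rfl) ?_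
        exact Or.inr ⟨y, hy, rfl⟩
    · intro p hp hpG
      apply hN3 (((fl p.l).map fun a => iU (code a)) ++ (p.G.toList.map fun y => iU (U.x y)))
      · intro b hb
        rcases List.mem_append.1 hb with hb | hb
        · obtain ⟨a, ha, rfl⟩ := List.mem_map.1 hb
          exact hp a ha
        · obtain ⟨a, ha, rfl⟩ := List.mem_map.1 hb
          exact hpG a (Finset.mem_toList.1 ha)
      · exact ⟨p, ⟨fun a ha => List.mem_append.2 (Or.inl (List.mem_map.2 ⟨a, ha, rfl⟩)),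
          fun y hy => List.mem_append.2 (Or.inr (List.mem_map.2
            ⟨y, Finset.mem_toList.2 hy, rfl⟩))⟩, rfl⟩
    · intro p D hp hD
      apply hN4 [Sum.inl p, Sum.inr (Sum.inl D)]
      · intro b hb
        rcases List.mem_pair.1 hb with rfl | rfl
        · exact hp
        · exact hD
      · exact ⟨(Sum.inl p, Sum.inr (Sum.inl D)), ⟨List.mem_pair.2 (Or.inl rfl),
          List.mem_pair.2 (Or.inr rfl)⟩, rfl⟩
    · intro p D t hp hD ht hr
      have hr' : ∃ r, r ∈ D ∧ ∃ l', r.l = p.l ++ l' ∧ (fl l').map Elt.z = t := hr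
      refine ⟨hr'.choose, hr'.choose_spec.1, ?_, hr'.choose_spec.2⟩
      apply hN5 (Sum.inl p :: Sum.inr (Sum.inl D) :: t.map fun a => iU (U.z a))
      · intro b hb
        rcases List.mem_cons.1 hb with rfl | hb
        · exact hp
        rcases List.mem_cons.1 hb with rfl | hb
        · exact hD
        obtain ⟨a, ha, rfl⟩ := List.mem_map.1 hb
        exact ht a ha
      · refine ⟨(Sum.inl p, Sum.inr (Sum.inl D), t), ⟨?_, ?_, ?_⟩, ?_⟩
        · exact List.mem_cons_self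
        · exact List.mem_cons_of_mem _ List.mem_cons_self
        · intro a ha
          exact List.mem_cons_of_mem _ (List.mem_cons_of_mem _ (List.mem_map.2 ⟨a, ha, rfl⟩))
        · exact dif_pos hr'

variable {Z e Pos}

theorem gen2_mem_fl {l : List (Blk T X W)} {a : Elt T X W} :
    a ∈ fl l ↔ ∃ B ∈ l, a = B.1 ∨ a = B.2 := by
  simp [fl, List.mem_flatMap]

theorem gen2_cons_fl (B : Blk T X W) (l : List (Blk T X W)) :
    fl (B :: l) = B.1 :: B.2 :: fl l := by
  simp [fl]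

theorem gen2_blk {B : Blk T X W} (hB : VB Z e Pos B) : range B.1.m ⊆ range B.2.m :=
  (code_mem Z e Pos hB.v2.good hB.c).1

theorem gen2_rb {B C : Blk T X W} (hC : VB Z e Pos C) (h : RB B C) {b c : Elt T X W}
    (hb : b = B.1 ∨ b = B.2) (hc : c = C.1 ∨ c = C.2) : code b ∈ range c.m := by
  have h1 : code b ∈ range C.1.m := by
    rcases hb with rfl | rfl
    · exact h.1
    · exact h.2
  rcases hc with rfl | rfl
  · exact h1
  · exact gen2_blk hC h1

theorem gen2_pw (l : List (Blk T X W)) (hv : ∀ B ∈ l, VB Z e Pos B) (hp : l.Pairwise RB) :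
    (fl l).Pairwise fun a b => code a ∈ range b.m := by
  induction l with
  | nil => simp [fl]
  | cons B l ih =>
    rw [gen2_cons_fl]
    rw [List.pairwise_cons] at hp
    have ih' := ih (fun C hC => hv C (List.mem_cons_of_mem _ hC)) hp.2
    rw [List.pairwise_cons, List.pairwise_cons]
    refine ⟨?_, ?_, ih'⟩
    · intro c hc
      rcases List.mem_cons.1 hc with rfl | hc
      · exact (hv B (by simp)).c
      · obtain ⟨C, hC, hcC⟩ := gen2_mem_fl.1 hc
        exact gen2_rb (hv C (List.mem_cons_of_mem _ hC)) (hp.1 C hC) (Or.inl rfl) hcC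
    · intro c hc
      obtain ⟨C, hC, hcC⟩ := gen2_mem_fl.1 hc
      exact gen2_rb (hv C (List.mem_cons_of_mem _ hC)) (hp.1 C hC) (Or.inr rfl) hcC

theorem gen2_valid {l : List (Blk T X W)} (hv : ∀ B ∈ l, VB Z e Pos B) {a : Elt T X W}
    (ha : a ∈ fl l) : Valid Z e Pos a := by
  obtain ⟨B, hB, hb⟩ := gen2_mem_fl.1 ha
  rcases hb with rfl | rfl
  · exact (hv B hB).v1
  · exact (hv B hB).v2

theorem gen2 {N : Set (C2 Z e Pos W ⊕ Set (C2 Z e Pos W) ⊕ U T X W)} (hN : NG Z e Pos N)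
    (hNc : N.Countable) (hP : PosSys Z e Pos) (he : ∀ x, Continuous fun t => e t x)
    {A : Blk T X W} (haN : range A.1.m = UP N) (q : C2 Z e Pos W) (haq : A ∈ q.l)
    (D : Set (C2 Z e Pos W)) (hD : Sum.inr (Sum.inl D) ∈ N) (hDd : ∀ p, ∃ r ∈ D, r ≤ p) :
    ∃ s ∈ D, Sum.inl s ∈ N ∧ Compat q s := by
  classical
  obtain ⟨d, hdD, hdq⟩ := hDd q
  have had : A ∈ d.l := List.Sublist.mem haq (C2_le.1 hdq).1
  obtain ⟨l0, l2, hd⟩ := List.append_of_mem had
  have hval := d.val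
  have hpw := d.pw
  rw [hd] at hval hpw
  rw [List.pairwise_append] at hpw
  obtain ⟨hpw0, hpw2, hpw02⟩ := hpw
  have hpw2' := hpw2
  rw [List.pairwise_cons] at hpw2
  obtain ⟨hpa, hpw2⟩ := hpw2
  have hvalA : ∀ B ∈ A :: l2, VB Z e Pos B := by
    intro B hB
    exact hval B (by rw [List.mem_append]; exact Or.inr hB)
  have hvA : VB Z e Pos A := hvalA A (by simp)
  let p0 : C2 Z e Pos W := ⟨l0, ∅, fun b hb => hval b (by simp [hb]), hpw0⟩
  have hp0 : Sum.inl p0 ∈ N := by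
    apply hN.three
    · intro b hb
      rw [← haN]
      obtain ⟨B, hB, hbB⟩ := gen2_mem_fl.1 hb
      exact gen2_rb hvA (hpw02 B hB A (by simp)) hbB (Or.inl rfl)
    · intro y hy
      exact absurd hy (Finset.notMem_empty y)
  obtain ⟨S, hSdef⟩ : ∃ S : Set (List T),
    S = {t | ∃ r ∈ D, ∃ l', r.l = p0.l ++ l' ∧ (fl l').map Elt.z = t} := ⟨_, rfl⟩
  have hS : U.s S ∈ UP N := by
    rw [hSdef]
    exact hN.four p0 D hp0 hD
  have hsub : ∀ b ∈ fl (A :: l2), range A.1.m ⊆ range b.m := by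
    intro b hb
    rw [gen2_cons_fl] at hb
    rcases List.mem_cons.1 hb with rfl | hb
    · exact Subset.rfl
    rcases List.mem_cons.1 hb with rfl | hb
    · exact gen2_blk hvA
    · obtain ⟨B, hB, hbB⟩ := gen2_mem_fl.1 hb
      have hvB : VB Z e Pos B := hvalA B (List.mem_cons_of_mem _ hB)
      have h1 : code A.1 ∈ range b.m := gen2_rb hvB (hpa B hB) (Or.inl rfl) hbB
      have hvb : Valid Z e Pos b := gen2_valid hvalA (gen2_mem_fl.2
        ⟨B, List.mem_cons_of_mem _ hB, hbB⟩)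
      exact (code_mem Z e Pos hvb.good h1).1
  have hlarge : Large Z Pos (fl (A :: l2)).length S := by
    have := down (Z := Z) (e := e) (Pos := Pos) (W := W)
      ((fl (A :: l2)).map fun b => (range b.m, b.z)) ?_ ?_ S ?_ ?_
    · simpa using this
    · intro c hc
      obtain ⟨b, hb, rfl⟩ := List.mem_map.1 hc
      have hv : Valid Z e Pos b := gen2_valid hvalA hb
      exact ⟨hv.good, hv.phi, countable_range _⟩
    · rw [List.pairwise_map]
      refine List.Pairwise.imp_of_mem ?_ (gen2_pw (A :: l2) hvalA hpw2')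
      intro b c hb hc hbc
      have hv : Valid Z e Pos c := gen2_valid hvalA hc
      have := code_mem Z e Pos hv.good hbc
      exact ⟨this.1, this.2.1⟩
    · intro c hc
      obtain ⟨b, hb, rfl⟩ := List.mem_map.1 hc
      apply hsub b hb
      rw [haN]; exact hS
    · rw [hSdef]
      refine ⟨d, hdD, A :: l2, hd, ?_⟩
      rw [List.map_map]
      rfl
  obtain ⟨V, hVdef⟩ : ∃ V : Set T, V = ⋂ y ∈ d.G, {t | |e t y - e A.1.z y| < 1 / 2} :=
    ⟨_, rfl⟩
  have hVo : IsOpen V := by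
    rw [hVdef]
    exact isOpen_biInter_finset fun y _ =>
      isOpen_lt ((he y).sub continuous_const).abs continuous_const
  have hVa : A.1.z ∈ V := by
    rw [hVdef]
    simp only [mem_iInter]
    intro y _
    change |e A.1.z y - e A.1.z y| < 1 / 2
    rw [sub_self, abs_zero]
    norm_num
  have hphi : A.1.z ∈ Phi Z Pos (UP N) := by
    rw [← haN]; exact hvA.v1.phi
  obtain ⟨t, htS, htn, htV⟩ := up (Z := Z) (e := e) (Pos := Pos) hN.good hphi V hVo hVa
    (fl (A :: l2)).length S hS hlarge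
  rw [hSdef] at htS
  obtain ⟨s, hsD, hsN, l', hsl, hl't⟩ := hN.five p0 D t hp0 hD (fun c hc => (htV c hc).2) htS
  have hsl' : s.l = l0 ++ l' := hsl
  refine ⟨s, hsD, hsN, ?_⟩
  have hl'V : ∀ b ∈ fl l', b.z ∈ V ∧ code b ∈ range A.1.m := by
    intro b hb
    refine ⟨(htV b.z ?_).1, ?_⟩
    · rw [← hl't]; exact List.mem_map_of_mem hb
    · rw [haN]
      apply hN.two s hsN
      obtain ⟨B, hB, hbB⟩ := gen2_mem_fl.1 hb
      refine gen2_mem_fl.2 ⟨B, ?_, hbB⟩
      rw [hsl', List.mem_append]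
      exact Or.inr hB
  have hcross : ∀ B ∈ l', ∀ C ∈ A :: l2, RB B C := by
    intro B hB C hC
    have hC1 : range A.1.m ⊆ range C.1.m :=
      hsub C.1 (gen2_mem_fl.2 ⟨C, hC, Or.inl rfl⟩)
    exact ⟨hC1 (hl'V B.1 (gen2_mem_fl.2 ⟨B, hB, Or.inl rfl⟩)).2,
      hC1 (hl'V B.2 (gen2_mem_fl.2 ⟨B, hB, Or.inr rfl⟩)).2⟩
  have hsv := s.val
  have hsp := s.pw
  rw [hsl'] at hsv hsp
  have hrval : ∀ B ∈ (l0 ++ l') ++ (A :: l2), VB Z e Pos B := by
    intro b hb
    rcases List.mem_append.1 hb with hb | hb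
    · exact hsv b hb
    · exact hvalA b hb
  have hrpw : ((l0 ++ l') ++ (A :: l2)).Pairwise RB := by
    rw [List.pairwise_append]
    refine ⟨hsp, hpw2', ?_⟩
    intro b hb c hc
    rcases List.mem_append.1 hb with hb | hb
    · exact hpw02 b hb c hc
    · exact hcross b hb c hc
  refine ⟨⟨(l0 ++ l') ++ (A :: l2), d.G ∪ s.G, hrval, hrpw⟩, ?_, ?_⟩
  · refine le_trans ?_ hdq
    rw [C2_le]
    refine ⟨?_, Finset.subset_union_left, ?_⟩
    · rw [hd]
      exact List.Sublist.append (List.sublist_append_left _ _) (List.Sublist.refl _)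
    · intro B hB hBd y hy
      have hBl' : B ∈ l' := by
        rw [hd] at hBd
        have hB' : B ∈ (l0 ++ l') ++ (A :: l2) := hB
        rw [List.mem_append, List.mem_append] at hB'
        rw [List.mem_append] at hBd
        push Not at hBd
        rcases hB' with (h | h) | h
        · exact absurd h hBd.1
        · exact h
        · exact absurd h hBd.2
      have h1 := (hl'V B.1 (gen2_mem_fl.2 ⟨B, hBl', Or.inl rfl⟩)).1
      have h2 := (hl'V B.2 (gen2_mem_fl.2 ⟨B, hBl', Or.inr rfl⟩)).1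
      rw [hVdef] at h1 h2
      simp only [mem_iInter] at h1 h2
      have h3 : |e B.1.z y - e A.1.z y| < 1 / 2 := h1 y hy
      have h4 : |e B.2.z y - e A.1.z y| < 1 / 2 := h2 y hy
      rw [abs_lt] at h3 h4 ⊢
      constructor <;> linarith [h3.1, h3.2, h4.1, h4.2]
  · rw [C2_le]
    refine ⟨?_, Finset.subset_union_right, ?_⟩
    · rw [hsl']
      exact List.sublist_append_left _ _
    · intro B hB hBs y hy
      have hBA : B ∈ A :: l2 := by
        rw [hsl'] at hBs
        have hB' : B ∈ (l0 ++ l') ++ (A :: l2) := hB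
        rcases List.mem_append.1 hB' with h | h
        · exact absurd h hBs
        · exact h
      have hx : U.x y ∈ range A.1.m := by
        rw [haN]
        exact hN.twoG s hsN y hy
      have hv := hvalA B hBA
      have h1 : e B.1.z y = 0 := Phi_zero hP hv.v1.good he hv.v1.phi
        (hsub B.1 (gen2_mem_fl.2 ⟨B, hBA, Or.inl rfl⟩) hx)
      have h2 : e B.2.z y = 0 := Phi_zero hP hv.v2.good he hv.v2.phi
        (hsub B.2 (gen2_mem_fl.2 ⟨B, hBA, Or.inr rfl⟩) hx)
      rw [h1, h2, sub_self, abs_zero]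
      exact one_pos

theorem mem_fl {l : List (Blk T X W)} {a : Elt T X W} :
    a ∈ fl l ↔ ∃ B ∈ l, a = B.1 ∨ a = B.2 := by
  simp [fl]

theorem exists_elt2 [CompactSpace T] (hZ : OClosed Z) (hbig : ∀ z ∈ Z, ∃ x, 1 ≤ |e z x|)
    {M : Set (U T X W)} (hM : Good Z e Pos M) (hc : M.Countable) :
    ∃ (m : ℕ → U T X W) (z : T) (x : X), range m = M ∧ z ∈ Phi Z Pos M ∧ 1 ≤ |e z x| := by
  obtain ⟨z0, -, -, hz0⟩ := hM.e' [] (by simp)
  obtain ⟨m, hm⟩ := hc.exists_eq_range ⟨_, hz0⟩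
  obtain ⟨z, hz⟩ := J11.Phi_nonempty hZ hM hc
  obtain ⟨x, hx⟩ := hbig z hz.1
  exact ⟨m, z, x, hm.symm, hz, hx⟩

theorem top_ext2 [CompactSpace T] (hP : PosSys Z e Pos) (hZ : OClosed Z)
    (hbig : ∀ z ∈ Z, ∃ x, 1 ≤ |e z x|) (he : ∀ x, Continuous fun t => e t x)
    (S0 : List (U T X W) → Set (U T X W)) (hS0 : ∀ l, (S0 l).Countable)
    (hS0' : ∀ M, ClosedUnder S0 M → Good Z e Pos M)
    {N : Set (C2 Z e Pos W ⊕ Set (C2 Z e Pos W) ⊕ U T X W)} (hN : NG Z e Pos N)
    (hNc : N.Countable) (p : C2 Z e Pos W) (hp : Sum.inl p ∈ N) :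
    ∃ q : C2 Z e Pos W, q ≤ p ∧ ∃ A ∈ q.l, range A.1.m = UP N := by
  have hUc : (UP N).Countable :=
    hNc.preimage (f := fun u => Sum.inr (Sum.inr u)) (Sum.inr_injective.comp Sum.inr_injective)
  obtain ⟨m, z, x, hm, hz, hx⟩ := exists_elt2 hZ hbig hN.good hUc
  let a : Elt T X W := ⟨m, z, x, none⟩
  obtain ⟨M', hM0, hM'c, hM'⟩ := J8.closed_exists S0 hS0 {code a} (countable_singleton _)
  have hM'g := hS0' M' hM'
  have haM : code a ∈ M' := hM0 rfl
  obtain ⟨m', z', x', hm', hz', hx'⟩ := exists_elt2 hZ hbig hM'g hM'c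
  let b : Elt T X W := ⟨m', z', x', none⟩
  have hsub : UP N ⊆ M' := by
    have := (code_mem Z e Pos hM'g haM).1
    rw [← hm]
    exact this
  have hva : Valid Z e Pos a := by
    refine ⟨?_, ?_, hx, ?_⟩
    · change Good Z e Pos (range m); rw [hm]; exact hN.good
    · change z ∈ Phi Z Pos (range m); rw [hm]; exact hz
    · intro h hh; cases hh
  have hvb : Valid Z e Pos b := by
    refine ⟨?_, ?_, hx', ?_⟩
    · change Good Z e Pos (range m'); rw [hm']; exact hM'g
    · change z' ∈ Phi Z Pos (range m'); rw [hm']; exact hz'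
    · intro h hh; cases hh
  refine ⟨⟨p.l ++ [(a, b)], p.G, ?_, ?_⟩, ?_, (a, b), ?_, hm⟩
  · intro B hB
    rcases List.mem_append.1 hB with hB | hB
    · exact p.val B hB
    · rw [List.mem_singleton] at hB
      subst hB
      refine ⟨hva, hvb, ?_⟩
      change code a ∈ range m'
      rw [hm']
      exact haM
  · rw [List.pairwise_append]
    refine ⟨p.pw, List.pairwise_singleton _ _, ?_⟩
    intro B hB C hC
    rw [List.mem_singleton] at hC
    subst hC
    have h1 := hN.two p hp B.1 (mem_fl.2 ⟨B, hB, Or.inl rfl⟩)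
    have h2 := hN.two p hp B.2 (mem_fl.2 ⟨B, hB, Or.inr rfl⟩)
    rw [← hm] at h1 h2
    exact ⟨h1, h2⟩
  · refine ⟨List.sublist_append_left _ _, Finset.Subset.refl _, ?_⟩
    intro B hB hBp y hy
    have hBab : B = (a, b) := by
      rcases List.mem_append.1 hB with hB | hB
      · exact absurd hB hBp
      · exact List.mem_singleton.1 hB
    subst hBab
    have hyN : U.x y ∈ UP N := hN.twoG p hp y hy
    have h1 : e a.z y = 0 := Phi_zero hP hN.good he hz hyN
    have h2 : e b.z y = 0 := Phi_zero hP hM'g he hz' (hsub hyN)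
    change |e a.z y - e b.z y| < 1
    rw [h1, h2]
    norm_num
  · exact List.mem_append_right _ (List.mem_singleton.2 rfl)

theorem proper2 [CompactSpace T] (hP : PosSys Z e Pos) (hZ : OClosed Z)
    (hbig : ∀ z ∈ Z, ∃ x, 1 ≤ |e z x|)
    (he : ∀ x, Continuous fun t => e t x) : Proper (C2 Z e Pos W) := by
  obtain ⟨S0, hS0, hS0'⟩ := J10.good_closure W hP
  obtain ⟨F, hF, hF'⟩ := ng_closure Z e Pos W S0 hS0 hS0'
  refine ⟨U T X W, F, hF, ?_⟩
  intro N hNc hN p hp
  obtain ⟨q, hqp, A, hA, hAm⟩ := top_ext2 hP hZ hbig he S0 hS0 hS0' (hF' N hN) hNc p hp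
  refine ⟨q, hqp, ?_⟩
  intro D hD hDd r hr
  exact gen2 (hF' N hN) hNc hP he hAm r (List.Sublist.mem hA hr.1) D hD hDd

theorem dense2 [CompactSpace T] (hP : PosSys Z e Pos) (hZ : OClosed Z)
    (hbig : ∀ z ∈ Z, ∃ x, 1 ≤ |e z x|)
    (he : ∀ x, Continuous fun t => e t x) (p : C2 Z e Pos W) (u : U T X W) :
    ∃ q ≤ p, ∃ A ∈ q.l, u ∈ range A.1.m := by
  obtain ⟨S0, hS0, hS0'⟩ := J10.good_closure W hP
  obtain ⟨F, hF, hF'⟩ := ng_closure Z e Pos W S0 hS0 hS0'
  obtain ⟨N, hN0, hNc, hN⟩ := J8.closed_exists F hF {Sum.inl p, Sum.inr (Sum.inr u)}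
    ((countable_singleton _).insert _)
  obtain ⟨q, hqp, A, hA, hAm⟩ := top_ext2 hP hZ hbig he S0 hS0 hS0' (hF' N hN) hNc p
    (hN0 (Or.inl rfl))
  refine ⟨q, hqp, A, hA, ?_⟩
  rw [hAm]
  exact hN0 (Or.inr rfl)

end poset

theorem core2 (hPFA : PFA) {T Y : Type} [TopologicalSpace T] [CompactSpace T] (Z : Set T) (w : T)
    (e : T → Y → ℝ) (hY : #Y ≤ ℵ₁) (hZ : OClosed Z) (hw : w ∈ closure Z)
    (he : ∀ y, Continuous fun t => e t y)
    (hew : ∀ y, e w y = 0) (hbig : ∀ z ∈ Z, ∃ y, 1 ≤ |e z y|) :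
    ∃ (I : Type) (z : I → T × T), ¬ Countable I ∧ (∀ i, (z i).1 ≠ (z i).2) ∧
      ∀ y, {i | 1 ≤ |e (z i).1 y - e (z i).2 y|}.Finite := by
  classical
  obtain ⟨Pos, hP⟩ := J9.exists_pos Z hZ w hw e he hew
  let D1 : W1 → Set (C2 Z e Pos W1) := fun α => {q | ∃ A ∈ q.l, U.w α ∈ range A.1.m}
  let D2 : Y → Set (C2 Z e Pos W1) := fun y => {q | y ∈ q.G}
  let p0 : C2 Z e Pos W1 := ⟨[], ∅, by simp, List.Pairwise.nil⟩
  obtain ⟨G, hp0G, hGne, hGup, hGdir, hGD⟩ := J7.PFA_below hPFA (C2 Z e Pos W1)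
    (proper2 hP hZ hbig he) p0 (range D1 ∪ range D2) (by
      refine (mk_union_le _ _).trans ?_
      refine (add_le_add (mk_range_le.trans W1_card) (mk_range_le.trans hY)).trans ?_
      rw [add_eq_self (aleph0_le_aleph 1)]) (by
      rintro _ (⟨α, rfl⟩ | ⟨y, rfl⟩) p
      · obtain ⟨q, hq, h⟩ := dense2 hP hZ hbig he p (U.w α)
        exact ⟨q, h, hq⟩
      · refine ⟨⟨p.l, insert y p.G, p.val, p.pw⟩, Finset.mem_insert_self _ _, ?_⟩
        exact ⟨List.Sublist.refl _, Finset.subset_insert _ _, fun B h1 h2 => absurd h1 h2⟩)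
  let E : Set (Blk T Y W1) := {A | ∃ q ∈ G, A ∈ q.l}
  have hEv : ∀ A ∈ E, VB Z e Pos A := by
    rintro A ⟨q, -, hA⟩
    exact q.val A hA
  refine ⟨E, fun A => (A.1.1.z, A.1.2.z), ?_, ?_, ?_⟩
  · intro hc
    have hEc : E.Countable := Set.countable_coe_iff.1 hc
    apply W1_hu
    rw [← Set.countable_univ_iff]
    have h1 : ∀ A : Blk T Y W1, {α : W1 | U.w α ∈ range A.1.m}.Countable := fun A =>
      (countable_range A.1.m).preimage (f := U.w) (fun α β h => U.w.inj h)
    refine (hEc.biUnion fun A _ => h1 A).mono ?_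
    intro α _
    obtain ⟨q, hqG, A, hA, hAα⟩ := hGD (D1 α) (Or.inl ⟨α, rfl⟩)
    exact mem_biUnion (show A ∈ E from ⟨q, hqG, hA⟩) hAα
  · rintro ⟨A, hA⟩ heq
    have heq' : A.1.z = A.2.z := heq
    have hv := hEv A hA
    have h1 : e A.2.z A.1.x = 0 :=
      Phi_zero hP hv.v2.good he hv.v2.phi (code_mem Z e Pos hv.v2.good hv.c).2.2
    have h2 := hv.v1.big
    rw [heq', h1, abs_zero] at h2
    linarith
  · intro y
    obtain ⟨q, hqG, hyq⟩ := hGD (D2 y) (Or.inr ⟨y, rfl⟩)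
    have hfin : {A : Blk T Y W1 | A ∈ q.l}.Finite := List.finite_toSet q.l
    refine (hfin.preimage (f := fun A : E => A.1) Subtype.val_injective.injOn).subset ?_
    rintro ⟨A, r, hrG, hAr⟩ hA
    have hA' : 1 ≤ |e A.1.z y - e A.2.z y| := hA
    by_contra hAq
    have hAq' : A ∉ q.l := hAq
    obtain ⟨s, hs, hsq, hsr⟩ := hGdir q hqG r hrG
    have := hsq.2.2 A (List.Sublist.mem hAr hsr.1) hAq' y hyq
    linarith

def ThinFamily (X : Type) [TopologicalSpace X] : Prop :=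
  ∃ (I : Type) (z : I → X × X), ¬ Countable I ∧ (∀ i, (z i).1 ≠ (z i).2) ∧
    ∀ f : C(X, ℝ), {i | 1 ≤ |f (z i).1 - f (z i).2|}.Finite

theorem thin_of_not_tight (hPFA : PFA) (T : Type) [TopologicalSpace T] [CompactSpace T]
    [T2Space T] (g : (ℵ₁ : Cardinal.{0}).ord.ToType → C(T, ℝ))
    (hg : ∀ x y, x ≠ y → ∃ i, 1 / 2 < |g i x - g i y|)
    (hT : ¬ CTight T) : ThinFamily T := by
  unfold CTight at hT
  push Not at hT
  obtain ⟨A, w, hw, hcon⟩ := hT
  have hw2 : w ∈ closure (ocl A) := closure_mono (J14.tightness_aux2 A) hw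
  obtain ⟨I, z, hI, hz, hfin⟩ := core2 hPFA (ocl A) w
    (fun t (ξ : (ℵ₁ : Cardinal.{0}).ord.ToType) => 2 * (g ξ t - g ξ w)) (by simp)
    (J14.tightness_aux1 A) hw2
    (fun ξ => continuous_const.mul ((g ξ).continuous.sub continuous_const))
    (fun ξ => by simp) (by
      intro t ht
      have htw : t ≠ w := by
        rintro rfl
        obtain ⟨C, hCA, hCc, hC⟩ := ht
        exact hcon C hCA hCc hC
      obtain ⟨i, hi⟩ := hg t w htw
      refine ⟨i, ?_⟩
      rw [abs_mul, abs_two]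
      linarith)
  refine ⟨I, z, hI, hz, fun f => ?_⟩
  have hK : IsCompact {p : T × T | 1 ≤ |f p.1 - f p.2|} :=
    (isClosed_le continuous_const (by fun_prop)).isCompact
  obtain ⟨t, ht⟩ := hK.elim_finite_subcover
    (fun i : (ℵ₁ : Cardinal.{0}).ord.ToType => {p : T × T | 1 / 2 < |g i p.1 - g i p.2|})
    (fun i => isOpen_lt continuous_const (by fun_prop)) (by
      intro p hp
      have hne : p.1 ≠ p.2 := by
        intro h
        have h1 : (1:ℝ) ≤ |f p.1 - f p.2| := hp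
        rw [h] at h1
        simp at h1
        linarith
      obtain ⟨i, hi⟩ := hg p.1 p.2 hne
      exact mem_iUnion.2 ⟨i, hi⟩)
  refine ((t.finite_toSet.biUnion fun i _ => hfin i)).subset ?_
  intro a ha
  have h1 := ht (show z a ∈ {p : T × T | 1 ≤ |f p.1 - f p.2|} from ha)
  simp only [mem_iUnion, exists_prop] at h1
  obtain ⟨i, hi, hlt⟩ := h1
  refine mem_biUnion (Finset.mem_coe.2 hi) ?_
  have hlt' : 1 / 2 < |g i (z a).1 - g i (z a).2| := hlt
  change 1 ≤ |2 * (g i (z a).1 - g i w) - 2 * (g i (z a).2 - g i w)|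
  have h2 : 2 * (g i (z a).1 - g i w) - 2 * (g i (z a).2 - g i w) =
      2 * (g i (z a).1 - g i (z a).2) := by ring
  rw [h2, abs_mul, abs_two]
  linarith


end Pool.Agent.Helper647.FU
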