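import Pool.Agent.Helper647.MM.Defs
import Pool.Agent.Helper647.MM.Poset

set_option autoImplicit false
set_option linter.all false

open Set Topology Cardinal

namespace Pool.Agent.Helper647.MM.Pos

open Pool.Agent.Helper647.FU (Compat CCC MeetsAll MA1 CTight ThinFamily PFA)

abbrev Om : Type := (ℵ₁ : Cardinal.{0}).ord.ToType

/-- conditions: a finite piece of the set and a finite set of promises -/
structure Cond {Λ ι : Type} (V : ι → Set Λ) where
  F : Finset Λ
  G : Finset ι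

instance {Λ ι : Type} (V : ι → Set Λ) : Nonempty (Cond V) := ⟨⟨∅, ∅⟩⟩

instance {Λ ι : Type} (V : ι → Set Λ) : PartialOrder (Cond V) where
  le p q := q.F ⊆ p.F ∧ q.G ⊆ p.G ∧ ∀ a ∈ p.F, a ∉ q.F → ∀ i ∈ q.G, a ∉ V i
  le_refl p := ⟨Finset.Subset.refl _, Finset.Subset.refl _, fun a h1 h2 => absurd h1 h2⟩
  le_trans p q r h1 h2 := by
    refine ⟨h2.1.trans h1.1, h2.2.1.trans h1.2.1, ?_⟩
    intro a ha har i hi
    by_cases haq : a ∈ q.F
    · exact h2.2.2 a haq har i hi
    · exact h1.2.2 a ha haq i (h2.2.1 hi)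
  le_antisymm p q h1 h2 := by
    cases p; cases q
    congr 1
    · exact Finset.Subset.antisymm h2.1 h1.1
    · exact Finset.Subset.antisymm h2.2.1 h1.2.1

theorem not_cpfc_of_thin (X : Type) [TopologicalSpace X] [CompactSpace X] [T2Space X]
    (h : ThinFamily X) : ¬ CountablePointFiniteCellularity X := by
  classical
  rintro hp
  obtain ⟨I, z, hI, hz1, hfin⟩ := h
  let O : I → Set C(X, ℝ) := fun a => {g | 1 < |g (z a).1 - g (z a).2|}
  have hOn : ∀ a, (O a).Nonempty := by
    intro a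
    obtain ⟨g, hg0, hg1, -⟩ := exists_continuous_zero_one_of_isClosed
      (isClosed_singleton (x := (z a).1)) (isClosed_singleton (x := (z a).2))
      (by rw [disjoint_singleton]; exact hz1 a)
    refine ⟨(2:ℝ) • g, ?_⟩
    have h0 : g (z a).1 = 0 := hg0 rfl
    have h1 : g (z a).2 = 1 := hg1 rfl
    simp [O, h0, h1]
  have h𝒰 := hp (O '' univ) (by
    rintro U ⟨a, _, rfl⟩
    refine ⟨?_, hOn a⟩
    refine isOpen_induced_iff.2 ⟨{h : X → ℝ | 1 < |h (z a).1 - h (z a).2|}, ?_, rfl⟩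
    exact isOpen_lt continuous_const (by fun_prop)) (by
    intro g
    refine ((hfin g).image O).subset ?_
    rintro U ⟨⟨a, ha, rfl⟩, hg⟩
    have hg' : (1:ℝ) < |g (z a).1 - g (z a).2| := hg
    exact ⟨a, hg'.le, rfl⟩)
  apply hI
  rw [← Set.countable_univ_iff]
  have hcov : (univ : Set I) ⊆ ⋃ U ∈ O '' univ, {a | O a = U} := by
    intro a ha
    exact mem_biUnion (mem_image_of_mem O ha) rfl
  refine (h𝒰.biUnion ?_).mono hcov
  rintro U ⟨b, hb, rfl⟩
  obtain ⟨g, hg⟩ := hOn b
  refine ((hfin g).subset ?_).countable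
  intro a hab
  have hab' : O a = O b := hab
  have : g ∈ O a := by rw [hab']; exact hg
  have h1 : (1:ℝ) < |g (z a).1 - g (z a).2| := this
  exact h1.le

theorem reduction_Iio (α : Om) : (Iio α).Countable := by
  rw [Cardinal.countable_iff_lt_aleph_one]
  exact Cardinal.mk_Iio_toType_ord_lt α

theorem reduction_bdd (S : Set Om) (hS : S.Countable) : ∃ γ : Om, ∀ α ∈ S, α < γ := by
  by_contra hcon
  push Not at hcon
  have h1 : (Set.univ : Set Om) = ⋃ α ∈ S, Iic α := by
    ext γ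
    simp only [Set.mem_univ, Set.mem_iUnion, Set.mem_Iic, exists_prop, true_iff]
    exact hcon γ
  have h2 : (Set.univ : Set Om).Countable := by
    rw [h1]
    refine hS.biUnion (fun α _ => ?_)
    have : Iic α = insert α (Iio α) := by
      ext x
      simp [le_iff_eq_or_lt]
    rw [this]
    exact (reduction_Iio α).insert α
  rw [Cardinal.countable_iff_lt_aleph_one, Cardinal.mk_univ, Cardinal.mk_ord_toType] at h2
  exact lt_irrefl _ h2

theorem reduction (X : Type) [TopologicalSpace X] [CompactSpace X] [T2Space X]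
    (hm : Monolithic X) (hX : ¬ TopologicalSpace.MetrizableSpace X) :
    ∃ A : Set X, ¬ TopologicalSpace.MetrizableSpace (closure A) ∧
      ∃ B : Set (Set (closure A)), TopologicalSpace.IsTopologicalBasis B ∧ #B ≤ ℵ₁ := by
  classical
  -- no countable set is dense
  have h1 : ∀ S : Set X, S.Countable → ∃ x, x ∉ closure S := by
    intro S hS
    by_contra hcon
    push Not at hcon
    apply hX
    obtain ⟨B, hB, hBc⟩ := hm S
    have hBc' : B.Countable := by
      rw [← Cardinal.le_aleph0_iff_set_countable]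
      refine hBc.trans ?_
      rw [max_le_iff]
      exact ⟨Cardinal.le_aleph0_iff_set_countable.2 hS, le_rfl⟩
    have hsc : SecondCountableTopology (closure S) := hB.secondCountableTopology hBc'
    have huniv : closure S = Set.univ := Set.eq_univ_of_forall hcon
    have hmet : TopologicalSpace.MetrizableSpace (closure S) := inferInstance
    have hemb : IsEmbedding (fun x : X => (⟨x, hcon x⟩ : closure S)) := by
      refine Topology.IsEmbedding.of_comp (by fun_prop) continuous_subtype_val ?_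
      exact Topology.IsEmbedding.id
    exact hemb.metrizableSpace
  have hne : Nonempty X := ⟨(h1 ∅ Set.countable_empty).choose⟩
  choose! e he using h1
  -- the sequence
  let a : Om → X := (wellFounded_lt (α := Om)).fix
    (fun α ih => e (Set.range (fun β : Iio α => ih β.1 β.2)))
  have ha : ∀ α, a α = e (Set.range (fun β : Iio α => a β.1)) := by
    intro α
    exact (wellFounded_lt (α := Om)).fix_eq _ α
  have ha2 : ∀ α, a α ∉ closure (a '' Iio α) := by
    intro α
    have hr : Set.range (fun β : Iio α => a β.1) = a '' Iio α := by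
      ext x
      simp
    have h2 := ha α
    rw [hr] at h2
    rw [h2]
    exact he _ ((reduction_Iio α).image a)
  refine ⟨Set.range a, ?_, ?_⟩
  · intro hmet
    have hcl : IsClosed (closure (Set.range a)) := isClosed_closure
    have hcomp : CompactSpace (closure (Set.range a)) := isCompact_iff_compactSpace.1 hcl.isCompact
    letI : MetricSpace (closure (Set.range a)) := TopologicalSpace.metrizableSpaceMetric _
    have hsc : SecondCountableTopology (closure (Set.range a)) :=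
      EMetric.secondCountable_of_sigmaCompact _
    obtain ⟨b, hbc, -, hb⟩ := TopologicalSpace.exists_countable_basis (closure (Set.range a))
    let a' : Om → closure (Set.range a) := fun α => ⟨a α, subset_closure ⟨α, rfl⟩⟩
    obtain ⟨γ0, -⟩ := reduction_bdd ∅ Set.countable_empty
    let f : Set (closure (Set.range a)) → Om := fun U =>
      if h : ∃ α, a' α ∈ U then h.choose else γ0
    obtain ⟨γ, hγ⟩ := reduction_bdd (f '' b) (hbc.image f)
    apply ha2 γ
    rw [mem_closure_iff]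
    intro o ho hγo
    obtain ⟨U, hU, hγU, hUo⟩ := hb.exists_subset_of_mem_open
      (show a' γ ∈ (Subtype.val ⁻¹' o) from hγo) (ho.preimage continuous_subtype_val)
    have hex : ∃ α, a' α ∈ U := ⟨γ, hγU⟩
    have hf : a' (f U) ∈ U := by
      have : f U = hex.choose := by
        simp only [f]
        rw [dif_pos hex]
      rw [this]
      exact hex.choose_spec
    exact ⟨a (f U), hUo hf, f U, hγ _ ⟨U, hU, rfl⟩, rfl⟩
  · obtain ⟨B, hB, hBc⟩ := hm (Set.range a)
    refine ⟨B, hB, hBc.trans ?_⟩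
    rw [max_le_iff]
    refine ⟨?_, Cardinal.aleph0_le_aleph 1⟩
    refine Cardinal.mk_range_le.trans ?_
    rw [Cardinal.mk_ord_toType]

theorem exists_family (X : Type) [TopologicalSpace X] [CompactSpace X] [T2Space X]
    (B : Set (Set X)) (hB : TopologicalSpace.IsTopologicalBasis B) (hc : #B ≤ ℵ₁) :
    ∃ g : Om → C(X, ℝ), ∀ x y, x ≠ y → ∃ i, 1 / 2 < |g i x - g i y| := by
  classical
  haveI : NormalSpace X := inferInstance
  let ι : Type := {p : B × B // Disjoint (closure (p.1 : Set X)) (closure (p.2 : Set X))}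
  have hf : ∀ p : ι, ∃ f : C(X, ℝ), EqOn f 0 (closure (p.1.1 : Set X)) ∧
      EqOn f 1 (closure (p.1.2 : Set X)) := by
    intro p
    obtain ⟨f, h1, h2, _⟩ := exists_continuous_zero_one_of_isClosed (isClosed_closure (s := (p.1.1 : Set X)))
      (isClosed_closure (s := (p.1.2 : Set X))) p.2
    exact ⟨f, h1, h2⟩
  choose f hf0 hf1 using hf
  have hcard : #ι ≤ #Om := by
    have h1 : #ι ≤ #(B × B) := Cardinal.mk_subtype_le _
    have h2 : #(B × B) ≤ ℵ₁ := by
      rw [Cardinal.mk_prod, Cardinal.lift_id]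
      calc #B * #B ≤ ℵ₁ * ℵ₁ := mul_le_mul' hc hc
        _ = ℵ₁ := Cardinal.mul_eq_self (Cardinal.aleph0_le_aleph 1)
    have h3 : #Om = ℵ₁ := Cardinal.mk_ord_toType _
    rw [h3]
    exact h1.trans h2
  obtain ⟨e⟩ : Nonempty (ι ↪ Om) := Cardinal.le_def _ _ |>.1 hcard
  let g : Om → C(X, ℝ) := fun i => if h : ∃ p, e p = i then f h.choose else 0
  have hg : ∀ p, g (e p) = f p := by
    intro p
    have h : ∃ q, e q = e p := ⟨p, rfl⟩
    have h2 : h.choose = p := e.injective h.choose_spec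
    simp only [g]
    rw [dif_pos h, h2]
  refine ⟨g, fun x y hxy => ?_⟩
  obtain ⟨u, hxu, hu, v, hyv, hv, huv⟩ := exists_open_nhds_disjoint_closure hxy
  obtain ⟨U, hUB, hxU, hUu⟩ := hB.exists_subset_of_mem_open hxu hu
  obtain ⟨V, hVB, hyV, hVv⟩ := hB.exists_subset_of_mem_open hyv hv
  let p : ι := ⟨(⟨U, hUB⟩, ⟨V, hVB⟩), huv.mono (closure_mono hUu) (closure_mono hVv)⟩
  refine ⟨e p, ?_⟩
  rw [hg]
  have h0 : f p x = 0 := hf0 p (subset_closure hxU)
  have h1 : f p y = 1 := hf1 p (subset_closure hyV)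
  rw [h0, h1]
  norm_num

theorem exists_pairs (X : Type) [TopologicalSpace X] [CompactSpace X] [T2Space X]
    (hX : ¬ TopologicalSpace.MetrizableSpace X) (g : Om → C(X, ℝ)) :
    ∃ z : Om → X × X, (∀ a, (z a).1 ≠ (z a).2) ∧
      ∀ a b, b < a → g b (z a).1 = g b (z a).2 := by
  have key : ∀ a : Om, ∃ z : X × X, z.1 ≠ z.2 ∧ ∀ b, b < a → g b z.1 = g b z.2 := by
    intro a
    by_contra hcon
    have hcon' : ∀ z : X × X, z.1 ≠ z.2 → ∃ b, b < a ∧ g b z.1 ≠ g b z.2 := by
      intro z hz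
      by_contra h
      apply hcon
      refine ⟨z, hz, fun b hb => ?_⟩
      by_contra h2
      exact h ⟨b, hb, h2⟩
    have hc : (Set.Iio a).Countable := by
      rw [Cardinal.countable_iff_lt_aleph_one]
      exact Cardinal.mk_Iio_toType_ord_lt a
    have : Countable (Set.Iio a) := hc.to_subtype
    let F : X → (Set.Iio a → ℝ) := fun x b => g b x
    have hF : Continuous F := continuous_pi fun b => (g b).continuous
    have hinj : Function.Injective F := by
      intro x y hxy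
      by_contra hne
      obtain ⟨b, hb, h⟩ := hcon' (x, y) hne
      exact h (congrFun hxy ⟨b, hb⟩)
    have : TopologicalSpace.MetrizableSpace (Set.Iio a → ℝ) :=
      TopologicalSpace.metrizableSpace_of_t3_secondCountable _
    exact hX (hF.isClosedEmbedding hinj).isEmbedding.metrizableSpace
  choose z hz1 hz2 using key
  exact ⟨z, hz1, hz2⟩

theorem cond_le_t {Λ ι : Type} {V : ι → Set Λ} {p q : Cond V} :
    p ≤ q ↔ q.F ⊆ p.F ∧ q.G ⊆ p.G ∧ ∀ a ∈ p.F, a ∉ q.F → ∀ i ∈ q.G, a ∉ V i := Iff.rfl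

theorem ccc_tight {Λ ι T : Type} [TopologicalSpace T] [CompactSpace T]
    (hT : ∀ k : ℕ, CTight (Fin k → T))
    (z : Λ → T) (d : ι → T → ℝ) (hd : ∀ i, Continuous (d i))
    (hcount : ∀ i, {a | 1 / 4 ≤ d i (z a)}.Countable)
    (A : Set (Cond fun i => {a | 1 / 2 < d i (z a)}))
    (hA : ∀ a ∈ A, ∀ b ∈ A, a ≠ b → ¬ ∃ c, c ≤ a ∧ c ≤ b) : A.Countable := by
  classical
  by_contra hunc
  -- step 1
  obtain ⟨n, hn⟩ : ∃ n, ¬ {p ∈ A | p.F.card = n}.Countable := by
    by_contra h
    push Not at h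
    apply hunc
    refine (countable_iUnion h).mono ?_
    intro p hp
    exact mem_iUnion.2 ⟨p.F.card, hp, rfl⟩
  -- step 2
  set S : Set ℕ := {m | ∃ R : Finset Λ, R.card = m ∧
    ¬ {p ∈ A | p.F.card = n ∧ R ⊆ p.F}.Countable} with hS
  have hS0 : (0 : ℕ) ∈ S := by
    refine ⟨∅, rfl, ?_⟩
    simpa using hn
  have hSb : BddAbove S := by
    refine ⟨n, ?_⟩
    rintro m ⟨R, rfl, hR⟩
    have : {p ∈ A | p.F.card = n ∧ R ⊆ p.F}.Nonempty := by
      by_contra he
      rw [not_nonempty_iff_eq_empty] at he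
      rw [he] at hR
      exact hR countable_empty
    obtain ⟨p, _, hp, hRp⟩ := this
    rw [← hp]
    exact Finset.card_le_card hRp
  obtain ⟨R, hRc, hRu⟩ := Nat.sSup_mem ⟨0, hS0⟩ hSb
  set A' : Set (Cond fun i => {a | 1 / 2 < d i (z a)}) := {p ∈ A | p.F.card = n ∧ R ⊆ p.F} with hA'
  have hsingle : ∀ ξ, ξ ∉ R → {p ∈ A' | ξ ∈ p.F}.Countable := by
    intro ξ hξ
    by_contra hc
    have : R.card + 1 ∈ S := by
      refine ⟨insert ξ R, Finset.card_insert_of_notMem hξ, fun hcc => hc (hcc.mono ?_)⟩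
      rintro p ⟨⟨hpA, hpn, hpR⟩, hξp⟩
      exact ⟨hpA, hpn, Finset.insert_subset hξp hpR⟩
    have := le_csSup hSb this
    omega
  have hcE : ∀ E : Set Λ, E.Countable → {p ∈ A' | ∃ ξ ∈ E, ξ ∈ p.F ∧ ξ ∉ R}.Countable := by
    intro E hE
    have h1 : (⋃ ξ ∈ E, {p ∈ A' | ξ ∈ p.F ∧ ξ ∉ R}).Countable := by
      refine hE.biUnion fun ξ _ => ?_
      by_cases hξ : ξ ∈ R
      · refine countable_empty.mono ?_
        rintro p ⟨_, _, h⟩
        exact h hξ
      · refine (hsingle ξ hξ).mono ?_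
        rintro p ⟨h1, h2, _⟩
        exact ⟨h1, h2⟩
    refine h1.mono ?_
    rintro p ⟨hp, ξ, hξ, h⟩
    exact mem_biUnion hξ ⟨hp, h⟩
  -- step 4
  obtain ⟨k, hk⟩ : ∃ k, n - R.card = k := ⟨_, rfl⟩
  have henum : ∀ p ∈ A', ∃ e : Fin k → Λ, ∀ ξ, (ξ ∈ p.F ∧ ξ ∉ R) ↔ ∃ c, e c = ξ := by
    rintro p ⟨_, hpn, hpR⟩
    have hcard : (p.F \ R).card = k := by
      rw [Finset.card_sdiff_of_subset hpR, hpn, hk]
    let e := (p.F \ R).equivFinOfCardEq hcard
    refine ⟨fun c => (e.symm c : Λ), fun ξ => ⟨fun h => ?_, ?_⟩⟩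
    · have hm : ξ ∈ p.F \ R := Finset.mem_sdiff.2 h
      exact ⟨e ⟨ξ, hm⟩, by simp⟩
    · rintro ⟨c, rfl⟩
      exact Finset.mem_sdiff.1 (e.symm c).2
  have hΛ : A'.Nonempty := by
    by_contra he
    rw [not_nonempty_iff_eq_empty] at he
    apply hRu
    rw [he]
    exact countable_empty
  have : Nonempty (Fin k → Λ) := ⟨(henum _ hΛ.some_mem).choose⟩
  choose! e he using henum
  let w : Cond (fun i => {a | 1 / 2 < d i (z a)}) → (Fin k → T) := fun p c => z (e p c)
  -- step 5
  obtain ⟨w0, hw0⟩ : ∃ w0 : Fin k → T, ∀ U ∈ 𝓝 w0, ¬ {p ∈ A' | w p ∈ U}.Countable := by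
    by_contra hcon
    push Not at hcon
    choose U hU hUc using hcon
    obtain ⟨t, ht⟩ := CompactSpace.elim_nhds_subcover U hU
    apply hRu
    have : A' ⊆ ⋃ x ∈ t, {p ∈ A' | w p ∈ U x} := by
      intro p hp
      have h1 : w p ∈ (⋃ x ∈ t, U x) := by rw [ht]; trivial
      simp only [mem_iUnion, exists_prop] at h1
      obtain ⟨x, hx, hpx⟩ := h1
      exact mem_biUnion (Finset.mem_coe.2 hx) ⟨hp, hpx⟩
    exact (t.countable_toSet.biUnion fun x _ => hUc x).mono this
  -- step 6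
  have hw0cl : w0 ∈ closure (w '' A') := by
    rw [mem_closure_iff_nhds]
    intro U hU
    by_contra hno
    apply hw0 U hU
    refine countable_empty.mono ?_
    rintro p ⟨hp, hpU⟩
    exact hno ⟨w p, hpU, p, hp, rfl⟩
  obtain ⟨B, hBA, hBc, hBcl⟩ := hT k _ _ hw0cl
  have hBp : ∀ b : B, ∃ p ∈ A', w p = b := fun b => hBA b.2
  choose pp hpA hpw using hBp
  have : Countable B := hBc.to_subtype
  obtain ⟨Q, hQ⟩ : ∃ Q : Set (Cond fun i => {a | 1 / 2 < d i (z a)}), Q = range pp := ⟨_, rfl⟩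
  have hQc : Q.Countable := by rw [hQ]; exact countable_range pp
  have hQA : ∀ p ∈ Q, p ∈ A' := by
    rw [hQ]
    rintro _ ⟨b, rfl⟩
    exact hpA b
  -- step 7
  set E : Set Λ := ⋃ p ∈ Q, ((↑p.F : Set Λ) ∪ ⋃ i ∈ p.G, {a | 1 / 4 ≤ d i (z a)}) with hE
  have hEc : E.Countable := by
    refine hQc.biUnion fun p _ => ?_
    refine p.F.countable_toSet.union ?_
    exact p.G.countable_toSet.biUnion fun i _ => hcount i
  obtain ⟨q, hqA, hqE, hqp⟩ : ∃ q ∈ A', (∀ ξ ∈ E, ¬ (ξ ∈ q.F ∧ ξ ∉ R)) ∧ ∀ p ∈ Q, q ≠ p := by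
    by_contra hno
    push Not at hno
    apply hRu
    refine ((hcE E hEc).union hQc).mono ?_
    intro q hq
    by_cases h : ∀ ξ ∈ E, ¬ (ξ ∈ q.F ∧ ξ ∉ R)
    · right
      obtain ⟨j, hj, hj2⟩ := hno q hq (by
        intro ξ hξ hqF
        by_contra hR
        exact h ξ hξ ⟨hqF, hR⟩)
      rw [hj2]
      exact hj
    · left
      push Not at h
      obtain ⟨ξ, hξ, h1, h2⟩ := h
      exact ⟨hq, ξ, hξ, h1, h2⟩
  -- step 8
  have hstep : ∀ p ∈ Q, ∃ c, ∃ i ∈ q.G, 1 / 2 < d i (w p c) := by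
    intro p hpQ
    by_contra hno
    push Not at hno
    apply hA q hqA.1 p (hQA p hpQ).1 (hqp p hpQ)
    refine ⟨⟨q.F ∪ p.F, q.G ∪ p.G⟩, ?_, ?_⟩
    · rw [cond_le_t]
      refine ⟨Finset.subset_union_left, Finset.subset_union_left, ?_⟩
      intro a ha haq i hi hV
      have haF : a ∈ p.F := by
        rcases Finset.mem_union.1 ha with h | h
        · exact absurd h haq
        · exact h
      have haR : a ∉ R := fun h => haq (hqA.2.2 h)
      obtain ⟨c, hc⟩ := (he p (hQA p hpQ) a).1 ⟨haF, haR⟩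
      have h1 := hno c i hi
      have h2 : (1:ℝ) / 2 < d i (z a) := hV
      change d i (z (e p c)) ≤ 1 / 2 at h1
      rw [hc] at h1
      linarith
    · rw [cond_le_t]
      refine ⟨Finset.subset_union_right, Finset.subset_union_right, ?_⟩
      intro a ha haq i hi hV
      have haF : a ∈ q.F := by
        rcases Finset.mem_union.1 ha with h | h
        · exact h
        · exact absurd h haq
      have haR : a ∉ R := fun h => haq ((hQA p hpQ).2.2 h)
      have h2 : (1:ℝ) / 2 < d i (z a) := hV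
      refine hqE a ?_ ⟨haF, haR⟩
      refine mem_biUnion hpQ (Or.inr ?_)
      refine mem_biUnion (Finset.mem_coe.2 hi) ?_
      change 1 / 4 ≤ d i (z a)
      linarith
  -- step 9
  have hKc : IsClosed {v : Fin k → T | ∃ c, ∃ i ∈ q.G, 1 / 2 ≤ d i (v c)} := by
    have : {v : Fin k → T | ∃ c, ∃ i ∈ q.G, 1 / 2 ≤ d i (v c)} =
        ⋃ c : Fin k, ⋃ i ∈ q.G, {v : Fin k → T | 1 / 2 ≤ d i (v c)} := by
      ext v; simp
    rw [this]
    refine isClosed_iUnion_of_finite fun c => ?_
    refine Set.Finite.isClosed_biUnion q.G.finite_toSet fun i _ => ?_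
    exact isClosed_le continuous_const ((hd i).comp (continuous_apply c))
  have hBK : B ⊆ {v : Fin k → T | ∃ c, ∃ i ∈ q.G, 1 / 2 ≤ d i (v c)} := by
    intro v hv
    have hv2 : w (pp ⟨v, hv⟩) = v := hpw ⟨v, hv⟩
    obtain ⟨c, i, hi, h⟩ := hstep (pp ⟨v, hv⟩) (by rw [hQ]; exact mem_range_self _)
    rw [hv2] at h
    exact ⟨c, i, hi, h.le⟩
  have hmem := closure_minimal hBK hKc hBcl
  obtain ⟨c, i, hi, hw⟩ := hmem
  -- step 10
  refine hw0 {v | 1 / 4 < d i (v c)} ?_ ?_
  · refine IsOpen.mem_nhds (isOpen_lt continuous_const ((hd i).comp (continuous_apply c))) ?_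
    change 1 / 4 < d i (w0 c)
    linarith
  · refine (hcE _ (hcount i)).mono ?_
    rintro r ⟨hr, hrU⟩
    have h1 : (1:ℝ) / 4 < d i (z (e r c)) := hrU
    have h2 := (he r hr (e r c)).2 ⟨c, rfl⟩
    exact ⟨hr, e r c, h1.le, h2⟩

theorem thin_of_tight (hMA : MA1) (X : Type) [TopologicalSpace X] [CompactSpace X] [T2Space X]
    (g : Om → C(X, ℝ)) (hg : ∀ x y, x ≠ y → ∃ i, 1 / 2 < |g i x - g i y|)
    (z : Om → X × X) (hz : ∀ a, (z a).1 ≠ (z a).2)
    (hz2 : ∀ a b, b < a → g b (z a).1 = g b (z a).2)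
    (hccc : CCC (Cond fun i : Om => {a : Om | 1 / 2 < |g i (z a).1 - g i (z a).2|})) :
    ThinFamily X := by
  classical
  have hΛ : ∀ a : Om, (Iio a).Countable := by
    intro a
    exact (countable_iff_lt_aleph_one _).2 (mk_Iio_toType_ord_lt a)
  have hΛc : #Om = ℵ₁ := by simp [Om]
  have hunc : ∀ E : Set Om, E.Countable → ∃ a, a ∉ E := by
    intro E hE
    by_contra hno
    push Not at hno
    have h1 : E = Set.univ := eq_univ_of_forall hno
    rw [h1] at hE
    have h2 : #(Set.univ : Set Om) ≤ ℵ₀ := le_aleph0_iff_set_countable.2 hE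
    rw [mk_univ, hΛc] at h2
    exact absurd h2 (not_le.2 aleph0_lt_aleph_one)
  have hIic : ∀ a : Om, (Iic a).Countable := by
    intro a
    rw [← Iio_insert]
    exact (hΛ a).insert a
  let V : Om → Set Om := fun i => {a : Om | 1 / 2 < |g i (z a).1 - g i (z a).2|}
  have hVi : ∀ i a, a ∈ V i → a ≤ i := by
    intro i a ha
    by_contra hcon
    rw [not_le] at hcon
    have h1 : (1:ℝ) / 2 < |g i (z a).1 - g i (z a).2| := ha
    rw [hz2 a i hcon, sub_self, abs_zero] at h1
    norm_num at h1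
  let D1 : Om → Set (Cond V) := fun δ => {p | ∃ a ∈ p.F, δ < a}
  let D2 : Om → Set (Cond V) := fun i => {p | i ∈ p.G}
  have hcard : #(↥(range D1 ∪ range D2) : Type) ≤ ℵ₁ := by
    refine (mk_union_le _ _).trans ?_
    have h1 : #(range D1) ≤ ℵ₁ := by
      rw [← hΛc]
      exact mk_range_le
    have h2 : #(range D2) ≤ ℵ₁ := by
      rw [← hΛc]
      exact mk_range_le
    refine (add_le_add h1 h2).trans ?_
    rw [add_eq_self aleph0_lt_aleph_one.le]
  have hdense : ∀ D ∈ range D1 ∪ range D2, ∀ p : Cond V, ∃ q ∈ D, q ≤ p := by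
    intro D hD p
    rcases hD with ⟨δ, rfl⟩ | ⟨i, rfl⟩
    · obtain ⟨a, ha⟩ := hunc (Iic δ ∪ ⋃ i ∈ p.G, Iic i)
        ((hIic δ).union (p.G.countable_toSet.biUnion fun i _ => hIic i))
      rw [mem_union, not_or] at ha
      refine ⟨⟨insert a p.F, p.G⟩, ⟨a, Finset.mem_insert_self _ _, not_le.1 ha.1⟩, ?_⟩
      refine ⟨Finset.subset_insert _ _, Finset.Subset.refl _, ?_⟩
      intro b hb hbp i hi hV
      rcases Finset.mem_insert.1 hb with rfl | h
      · apply ha.2
        refine mem_biUnion (Finset.mem_coe.2 hi) ?_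
        exact hVi i b hV
      · exact hbp h
    · refine ⟨⟨p.F, insert i p.G⟩, Finset.mem_insert_self _ _, ?_⟩
      exact ⟨Finset.Subset.refl _, Finset.subset_insert _ _, fun a h1 h2 => absurd h1 h2⟩
  obtain ⟨G, -, -, hG3, hG4⟩ := hMA (Cond V) hccc (range D1 ∪ range D2) hcard hdense
  set Γ : Set Om := {a | ∃ p ∈ G, a ∈ p.F} with hΓ
  have hΓu : ¬ Γ.Countable := by
    intro hc
    obtain ⟨δ, hδ⟩ := hunc (⋃ a ∈ Γ, Iic a) (hc.biUnion fun a _ => hIic a)
    obtain ⟨p, hpG, ⟨a, ha, hδa⟩⟩ := hG4 (D1 δ) (Or.inl ⟨δ, rfl⟩)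
    exact hδ (mem_biUnion (show a ∈ Γ from ⟨p, hpG, ha⟩) hδa.le)
  have hfin1 : ∀ i, {a ∈ Γ | 1 / 2 < |g i (z a).1 - g i (z a).2|}.Finite := by
    intro i
    obtain ⟨q, hqG, hq⟩ := hG4 (D2 i) (Or.inr ⟨i, rfl⟩)
    refine q.F.finite_toSet.subset ?_
    rintro a ⟨⟨p, hpG, hap⟩, hV⟩
    obtain ⟨r, hrG, hrp, hrq⟩ := hG3 p hpG q hqG
    by_contra hnot
    exact hrq.2.2 a (hrp.1 hap) hnot i hq hV
  have hfin2 : ∀ f : C(X, ℝ), {a ∈ Γ | 1 ≤ |f (z a).1 - f (z a).2|}.Finite := by
    intro f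
    have hK : IsCompact {p : X × X | 1 ≤ |f p.1 - f p.2|} :=
      (isClosed_le continuous_const (by fun_prop)).isCompact
    obtain ⟨t, ht⟩ := hK.elim_finite_subcover (fun i => {p : X × X | 1 / 2 < |g i p.1 - g i p.2|})
      (fun i => isOpen_lt continuous_const (by fun_prop)) (by
        intro p hp
        have hne : p.1 ≠ p.2 := by
          intro h
          have h1 : (1:ℝ) ≤ |f p.1 - f p.2| := hp
          rw [h] at h1
          simp at h1
          linarith
        obtain ⟨i, hi⟩ := hg p.1 p.2 hne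
        exact mem_iUnion.2 ⟨i, hi⟩)
    refine ((t.finite_toSet.biUnion fun i _ => hfin1 i)).subset ?_
    rintro a ⟨haΓ, ha⟩
    have h1 := ht (show z a ∈ {p : X × X | 1 ≤ |f p.1 - f p.2|} from ha)
    simp only [mem_iUnion, exists_prop] at h1
    obtain ⟨i, hi, hlt⟩ := h1
    exact mem_biUnion (Finset.mem_coe.2 hi) ⟨haΓ, hlt⟩
  refine ⟨↥Γ, fun a => z a, ?_, fun i => hz i, ?_⟩
  · intro hc
    exact hΓu (Set.countable_coe_iff.mp hc)
  · intro f
    have h1 := (hfin2 f).preimage (f := ((↑) : Γ → Om)) Subtype.val_injective.injOn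
    refine h1.subset ?_
    intro a ha
    exact ⟨a.2, ha⟩


theorem positive (hPFA : PFA) (X : Type) [TopologicalSpace X] [CompactSpace X] [T2Space X]
    (hm : Monolithic X) (hp : CountablePointFiniteCellularity X) :
    TopologicalSpace.MetrizableSpace X := by
  by_contra hX
  obtain ⟨A, hA, B, hB, hBc⟩ := reduction X hm hX
  have i1 : CompactSpace (closure A) := isCompact_iff_compactSpace.1 isClosed_closure.isCompact
  obtain ⟨g, hg⟩ := exists_family (closure A) B hB hBc
  have hthin : ThinFamily (closure A) := by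
    by_cases hT : CTight (closure A)
    · have hT2 : CTight (closure A × closure A) := Pool.Agent.Helper647.FU.J1.CTight.prod hT hT
      obtain ⟨z, hz1, hz2⟩ := exists_pairs (closure A) hA g
      refine thin_of_tight (Pool.Agent.Helper647.FU.J8.MA1_of_PFA hPFA) (closure A) g hg z hz1 hz2 ?_
      intro 𝒜 h𝒜
      refine ccc_tight (T := closure A × closure A) (fun k => Pool.Agent.Helper647.FU.J1.CTight.pi hT2 k) z
        (fun i p => |g i p.1 - g i p.2|) (fun i => by fun_prop) ?_ 𝒜 h𝒜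
      intro i
      have hIio : (Iic i : Set Om).Countable := by
        rw [← Iio_insert]
        exact ((countable_iff_lt_aleph_one _).2 (mk_Iio_toType_ord_lt i)).insert i
      refine hIio.mono ?_
      intro a ha
      by_contra hai
      have hlt : i < a := not_le.1 hai
      have h1 : (1:ℝ) / 4 ≤ |g i (z a).1 - g i (z a).2| := ha
      rw [hz2 a i hlt, sub_self, abs_zero] at h1
      norm_num at h1
    · exact Pool.Agent.Helper647.FU.thin_of_not_tight hPFA (closure A) g hg hT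
  obtain ⟨I, z, hI, hz, hf⟩ := hthin
  refine not_cpfc_of_thin X ⟨I, fun i => ((z i).1, (z i).2), hI,
    fun i h => hz i (Subtype.ext h), fun f => ?_⟩ hp
  exact hf (f.restrict (closure A))

end Pool.Agent.Helper647.MM.Pos
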